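import Pool.Agent.H752Z.Gross.Defs

namespace Pool.Agent.H752Z.Gross

open scoped Quaternion
open QuaternionAlgebra

variable {a b : ℚ}

lemma tr_eq (x : ℍ[ℚ,a,b]) : tr x = 2 * x.re := by
  simp [tr]; ring

lemma nr_eq (x : ℍ[ℚ,a,b]) :
    nr x = x.re ^ 2 - a * x.imI ^ 2 - b * x.imJ ^ 2 + a * b * x.imK ^ 2 := by
  simp [nr]; ring

/-- triple product -/
def tau (u v w : ℍ[ℚ,a,b]) : ℚ := tr ((u * v - v * u) * star w)

/-- Gram form of the Gross lattice -/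
def g (u v : ℍ[ℚ,a,b]) : ℚ := 2 * tr (u * star v) - tr u * tr v

lemma tau_eq (u v w : ℍ[ℚ,a,b]) : tau u v w =
    4 * a * b * (u.imI * (v.imJ * w.imK - v.imK * w.imJ) - u.imJ * (v.imI * w.imK - v.imK * w.imI)
      + u.imK * (v.imI * w.imJ - v.imJ * w.imI)) := by
  simp [tau, tr_eq]; ring

lemma g_eq (u v : ℍ[ℚ,a,b]) : g u v =
    4 * (- a * u.imI * v.imI - b * u.imJ * v.imJ + a * b * u.imK * v.imK) := by
  simp [g, tr_eq]; ring

lemma nr_mul (x y : ℍ[ℚ,a,b]) : nr (x * y) = nr x * nr y := by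
  simp [nr_eq]; ring

lemma nr_smul (r : ℚ) (x : ℍ[ℚ,a,b]) : nr (r • x) = r ^ 2 * nr x := by
  simp [nr_eq]; ring

lemma tr_smul (r : ℚ) (x : ℍ[ℚ,a,b]) : tr (r • x) = r * tr x := by
  simp [tr_eq]; ring

lemma nr_star (x : ℍ[ℚ,a,b]) : nr (star x) = nr x := by
  simp [nr_eq]

lemma star_eq (x : ℍ[ℚ,a,b]) : star x = tr x • (1 : ℍ[ℚ,a,b]) - x := by
  ext <;> simp [tr_eq]; ring

lemma mul_star_eq (x : ℍ[ℚ,a,b]) : x * star x = nr x • (1 : ℍ[ℚ,a,b]) := by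
  ext <;> simp [nr_eq] <;> ring

lemma star_mul_eq (x : ℍ[ℚ,a,b]) : star x * x = nr x • (1 : ℍ[ℚ,a,b]) := by
  ext <;> simp [nr_eq] <;> ring

lemma nr_pow (x : ℍ[ℚ,a,b]) (n : ℕ) : nr (x ^ n) = nr x ^ n := by
  induction n with
  | zero => simp [nr_eq]
  | succ n ih => rw [pow_succ, nr_mul, ih, pow_succ]

lemma int_smul_mem (O : Subring ℍ[ℚ,a,b]) (n : ℤ) {x : ℍ[ℚ,a,b]} (hx : x ∈ O) :
    (n : ℚ) • x ∈ O := by
  rw [Int.cast_smul_eq_zsmul]
  exact zsmul_mem hx n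

lemma nat_smul_mem (O : Subring ℍ[ℚ,a,b]) (n : ℕ) {x : ℍ[ℚ,a,b]} (hx : x ∈ O) :
    (n : ℚ) • x ∈ O := by
  have := int_smul_mem O (n : ℤ) hx
  simpa using this

/-- bounded denominators -/
lemma exists_denom (S : AddSubgroup ℍ[ℚ,a,b]) (hS : S.FG) :
    ∃ D : ℕ, 0 < D ∧ ∀ u ∈ S, ∃ n0 n1 n2 n3 : ℤ,
      (D : ℚ) * u.re = n0 ∧ (D : ℚ) * u.imI = n1 ∧ (D : ℚ) * u.imJ = n2 ∧ (D : ℚ) * u.imK = n3 := by
  classical
  obtain ⟨s, rfl⟩ := hS
  refine ⟨∏ u ∈ s, (u.re.den * u.imI.den * u.imJ.den * u.imK.den), ?_, ?_⟩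
  · refine Finset.prod_pos fun u _ => ?_
    have := u.re.den_pos; have := u.imI.den_pos; have := u.imJ.den_pos; have := u.imK.den_pos
    positivity
  · intro u hu
    induction hu using AddSubgroup.closure_induction with
    | mem x hx =>
      obtain ⟨k, hk⟩ : (x.re.den * x.imI.den * x.imJ.den * x.imK.den) ∣
          ∏ u ∈ s, (u.re.den * u.imI.den * u.imJ.den * u.imK.den) :=
        Finset.dvd_prod_of_mem _ hx
      rw [hk]
      refine ⟨x.re.num * (x.imI.den * x.imJ.den * x.imK.den * k),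
        x.imI.num * (x.re.den * x.imJ.den * x.imK.den * k),
        x.imJ.num * (x.re.den * x.imI.den * x.imK.den * k),
        x.imK.num * (x.re.den * x.imI.den * x.imJ.den * k), ?_, ?_, ?_, ?_⟩
      · push_cast; rw [← Rat.mul_den_eq_num x.re]; ring
      · push_cast; rw [← Rat.mul_den_eq_num x.imI]; ring
      · push_cast; rw [← Rat.mul_den_eq_num x.imJ]; ring
      · push_cast; rw [← Rat.mul_den_eq_num x.imK]; ring
    | zero => exact ⟨0, 0, 0, 0, by simp, by simp, by simp, by simp⟩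
    | add x y _ _ hx hy =>
      obtain ⟨n0, n1, n2, n3, h0, h1, h2, h3⟩ := hx
      obtain ⟨m0, m1, m2, m3, k0, k1, k2, k3⟩ := hy
      refine ⟨n0 + m0, n1 + m1, n2 + m2, n3 + m3, ?_, ?_, ?_, ?_⟩
      · rw [Int.cast_add, ← h0, ← k0, re_add]; ring
      · rw [Int.cast_add, ← h1, ← k1, imI_add]; ring
      · rw [Int.cast_add, ← h2, ← k2, imJ_add]; ring
      · rw [Int.cast_add, ← h3, ← k3, imK_add]; ring
    | neg x _ hx =>
      obtain ⟨n0, n1, n2, n3, h0, h1, h2, h3⟩ := hx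
      refine ⟨-n0, -n1, -n2, -n3, ?_, ?_, ?_, ?_⟩
      · rw [Int.cast_neg, ← h0, re_neg]; ring
      · rw [Int.cast_neg, ← h1, imI_neg]; ring
      · rw [Int.cast_neg, ← h2, imJ_neg]; ring
      · rw [Int.cast_neg, ← h3, imK_neg]; ring

lemma int_of_pow_bdd (r : ℚ) (D : ℕ) (hD : 0 < D) (h : ∀ n : ℕ, ∃ m : ℤ, (D : ℚ) * r ^ n = m) :
    ∃ m : ℤ, r = m := by
  have h1 : ∀ n : ℕ, r.den ^ n ∣ D := by
    intro n
    obtain ⟨m, hm⟩ := h n
    have hD' : (D : ℚ) ≠ 0 := by positivity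
    have : r ^ n = (m : ℚ) / (D : ℤ) := by
      push_cast; field_simp; linarith
    have h2 : ((r ^ n).den : ℤ) ∣ (D : ℤ) := by
      rw [this, ← Rat.divInt_eq_div]
      exact Rat.den_dvd _ _
    rw [Rat.den_pow] at h2
    exact_mod_cast h2
  have h2 : r.den = 1 := by
    by_contra hne
    have h3 : 1 < r.den := by have := r.den_pos; omega
    have h4 := Nat.le_of_dvd hD (h1 D)
    have h5 : D < r.den ^ D := Nat.lt_pow_self h3
    omega
  exact ⟨r.num, by rw [← Rat.mul_den_eq_num r, h2]; simp⟩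

lemma nr_int {O : Subring ℍ[ℚ,a,b]} (hO : O.toAddSubgroup.FG) {x : ℍ[ℚ,a,b]} (hx : x ∈ O) :
    ∃ m : ℤ, nr x = m := by
  obtain ⟨D, hD, h⟩ := exists_denom _ hO
  refine int_of_pow_bdd _ (D ^ 2 * a.den * b.den) ?_ ?_
  · have := a.den_pos; have := b.den_pos; positivity
  · intro n
    obtain ⟨n0, n1, n2, n3, h0, h1, h2, h3⟩ := h (x ^ n) (pow_mem hx n)
    refine ⟨n0 ^ 2 * a.den * b.den - a.num * n1 ^ 2 * b.den - b.num * n2 ^ 2 * a.den
      + a.num * b.num * n3 ^ 2, ?_⟩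
    rw [← nr_pow, nr_eq]
    push_cast
    rw [← h0, ← h1, ← h2, ← h3, ← Rat.mul_den_eq_num a, ← Rat.mul_den_eq_num b]
    ring

lemma tr_int {O : Subring ℍ[ℚ,a,b]} (hO : O.toAddSubgroup.FG) {x : ℍ[ℚ,a,b]} (hx : x ∈ O) :
    ∃ m : ℤ, tr x = m := by
  obtain ⟨m, hm⟩ := nr_int hO hx
  obtain ⟨k, hk⟩ := nr_int hO (add_mem hx (one_mem O))
  refine ⟨k - m - 1, ?_⟩
  push_cast
  rw [← hm, ← hk]
  simp [nr_eq, tr_eq]; ring

lemma star_mem' {O : Subring ℍ[ℚ,a,b]} (hO : O.toAddSubgroup.FG) {x : ℍ[ℚ,a,b]} (hx : x ∈ O) :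
    star x ∈ O := by
  obtain ⟨m, hm⟩ := tr_int hO hx
  rw [star_eq, hm]
  exact sub_mem (int_smul_mem O m (one_mem O)) hx

lemma fg_map {S : AddSubgroup ℍ[ℚ,a,b]} (hS : S.FG) (f : ℍ[ℚ,a,b] →+ ℍ[ℚ,a,b]) :
    (S.map f).FG := by
  classical
  obtain ⟨s, rfl⟩ := hS
  exact ⟨s.image f, by rw [AddMonoidHom.map_closure, Finset.coe_image]⟩

/-- the trace dual -/
def Dual (O : Subring ℍ[ℚ,a,b]) (w : ℍ[ℚ,a,b]) : Prop := ∀ u ∈ O, ∃ n : ℤ, tr (w * u) = n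

lemma tr_comm (x y : ℍ[ℚ,a,b]) : tr (x * y) = tr (y * x) := by
  simp [tr_eq]; ring

/-- A maximal order is a maximal integral lattice. -/
lemma mem_of_dual {O : Subring ℍ[ℚ,a,b]} (hO : IsMaximalOrder O) {w : ℍ[ℚ,a,b]}
    (hw : Dual O w) (hn : ∃ m : ℤ, nr w = m) : w ∈ O := by
  obtain ⟨⟨hfg, hsp⟩, hmax⟩ := hO
  obtain ⟨m, hm⟩ := hn
  obtain ⟨t, ht⟩ : ∃ t : ℤ, tr w = t := by simpa using hw 1 (one_mem O)
  have key1 : ∀ u ∈ O, ∃ u' ∈ O, ∃ v' ∈ O, u * w = u' + w * v' := by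
    intro u hu
    obtain ⟨n, hn⟩ := hw u hu
    refine ⟨(n : ℚ) • (1 : ℍ[ℚ,a,b]) - (t : ℚ) • star u,
      sub_mem (int_smul_mem O n (one_mem O)) (int_smul_mem O t (star_mem' hfg hu)),
      star u, star_mem' hfg hu, ?_⟩
    rw [← hn, ← ht]
    ext <;> simp [tr_eq] <;> ring
  have key2 : w * w = (-m : ℤ) • (1 : ℍ[ℚ,a,b]) + w * ((t : ℚ) • (1 : ℍ[ℚ,a,b])) := by
    rw [← Int.cast_smul_eq_zsmul ℚ]
    push_cast
    rw [← hm, ← ht]
    ext <;> simp [tr_eq, nr_eq] <;> ring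
  let T : Subring ℍ[ℚ,a,b] :=
    { carrier := {s | ∃ u ∈ O, ∃ v ∈ O, s = u + w * v}
      mul_mem' := by
        rintro _ _ ⟨u, hu, v, hv, rfl⟩ ⟨u', hu', v', hv', rfl⟩
        obtain ⟨c1, hc1, d1, hd1, e1⟩ := key1 u hu
        obtain ⟨c2, hc2, d2, hd2, e2⟩ := key1 v hv
        refine ⟨u * u' + c1 * v' + (-m : ℤ) • (d2 * v'), ?_,
          v * u' + d1 * v' + c2 * v' + (t : ℚ) • (d2 * v'), ?_, ?_⟩
        · exact add_mem (add_mem (mul_mem hu hu') (mul_mem hc1 hv'))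
            (zsmul_mem (mul_mem hd2 hv') _)
        · exact add_mem (add_mem (add_mem (mul_mem hv hu') (mul_mem hd1 hv')) (mul_mem hc2 hv'))
            (int_smul_mem O t (mul_mem hd2 hv'))
        · have e3 : (u + w * v) * (u' + w * v') =
              u * u' + (u * w) * v' + w * v * u' + w * (v * w) * v' := by noncomm_ring
          have e4 : w * (c2 + w * d2) * v' = w * c2 * v' + (w * w) * d2 * v' := by noncomm_ring
          rw [e3, e1, e2, e4, key2]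
          simp only [add_mul, mul_add, smul_mul_assoc, mul_smul_comm, one_mul, mul_one, mul_assoc]
          abel
      one_mem' := ⟨1, one_mem O, 0, zero_mem O, by simp⟩
      add_mem' := by
        rintro _ _ ⟨u, hu, v, hv, rfl⟩ ⟨u', hu', v', hv', rfl⟩
        exact ⟨u + u', add_mem hu hu', v + v', add_mem hv hv', by noncomm_ring⟩
      zero_mem' := ⟨0, zero_mem O, 0, zero_mem O, by simp⟩
      neg_mem' := by
        rintro _ ⟨u, hu, v, hv, rfl⟩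
        exact ⟨-u, neg_mem hu, -v, neg_mem hv, by noncomm_ring⟩ }
  have hle : O ≤ T := fun u hu => ⟨u, hu, 0, zero_mem O, by simp⟩
  have hT : IsOrder T := by
    constructor
    · have : T.toAddSubgroup = O.toAddSubgroup ⊔ O.toAddSubgroup.map (AddMonoidHom.mulLeft w) := by
        ext s
        rw [AddSubgroup.mem_sup]
        constructor
        · rintro ⟨u, hu, v, hv, rfl⟩
          exact ⟨u, hu, w * v, ⟨v, hv, rfl⟩, rfl⟩
        · rintro ⟨u, hu, _, ⟨v, hv, rfl⟩, rfl⟩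
          exact ⟨u, hu, v, hv, rfl⟩
      rw [this]
      exact hfg.sup (fg_map hfg _)
    · rw [eq_top_iff, ← hsp]
      exact Submodule.span_mono hle
  have := hmax T hT hle
  rw [← this]
  exact ⟨0, zero_mem O, 1, one_mem O, by simp⟩

end Pool.Agent.H752Z.Gross
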