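import Pool.Agent.H752Z.Gross.A

namespace Pool.Agent.H752Z.Gross

open scoped Quaternion
open QuaternionAlgebra

variable {a b : ℚ}

/-- linear combination of `1, x, y, z` -/
def comb (x y z : ℍ[ℚ,a,b]) (r0 r1 r2 r3 : ℚ) : ℍ[ℚ,a,b] :=
  r0 • (1 : ℍ[ℚ,a,b]) + r1 • x + r2 • y + r3 • z

/-- `1, x, y, z` generate `O` additively -/
def Spans (O : Subring ℍ[ℚ,a,b]) (x y z : ℍ[ℚ,a,b]) : Prop :=
  x ∈ O ∧ y ∈ O ∧ z ∈ O ∧ ∀ u ∈ O, ∃ n0 n1 n2 n3 : ℤ, u = comb x y z n0 n1 n2 n3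

lemma comb_mem {O : Subring ℍ[ℚ,a,b]} {x y z : ℍ[ℚ,a,b]} (hx : x ∈ O) (hy : y ∈ O) (hz : z ∈ O)
    (n0 n1 n2 n3 : ℤ) : comb x y z n0 n1 n2 n3 ∈ O :=
  add_mem (add_mem (add_mem (int_smul_mem O n0 (one_mem O)) (int_smul_mem O n1 hx))
    (int_smul_mem O n2 hy)) (int_smul_mem O n3 hz)

lemma tau_comb1 (x y z : ℍ[ℚ,a,b]) (r0 r1 r2 r3 : ℚ) :
    tau (comb x y z r0 r1 r2 r3) y z = r1 * tau x y z := by
  simp [tau_eq, comb]; ring

lemma tau_comb2 (x y z : ℍ[ℚ,a,b]) (r0 r1 r2 r3 : ℚ) :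
    tau x (comb x y z r0 r1 r2 r3) z = r2 * tau x y z := by
  simp [tau_eq, comb]; ring

lemma tau_comb3 (x y z : ℍ[ℚ,a,b]) (r0 r1 r2 r3 : ℚ) :
    tau x y (comb x y z r0 r1 r2 r3) = r3 * tau x y z := by
  simp [tau_eq, comb]; ring

lemma scalar_int {O : Subring ℍ[ℚ,a,b]} (hO : O.toAddSubgroup.FG) {v : ℍ[ℚ,a,b]} (hv : v ∈ O)
    (h1 : v.imI = 0) (h2 : v.imJ = 0) (h3 : v.imK = 0) : ∃ n : ℤ, v.re = n := by
  refine int_of_pow_bdd _ 2 (by norm_num) fun n => ?_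
  have hv' : v = v.re • (1 : ℍ[ℚ,a,b]) := by ext <;> simp [h1, h2, h3]
  obtain ⟨m, hm⟩ := tr_int hO (pow_mem hv n)
  refine ⟨m, ?_⟩
  rw [← hm, hv', smul_pow, one_pow, tr_smul]
  simp [tr_eq]; ring

/-- imaginary coordinates -/
def imv (a b : ℚ) : ℍ[ℚ,a,b] →ₗ[ℤ] (Fin 3 → ℚ) where
  toFun u := ![u.imI, u.imJ, u.imK]
  map_add' u v := by ext i; fin_cases i <;> simp
  map_smul' n u := by ext i; fin_cases i <;> simp

lemma spans_of {O : Subring ℍ[ℚ,a,b]} (hO : O.toAddSubgroup.FG) {x y z : ℍ[ℚ,a,b]}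
    (hx : x ∈ O) (hy : y ∈ O) (hz : z ∈ O)
    (h : ∀ u ∈ O, ∃ n1 n2 n3 : ℤ, imv a b u = n1 • imv a b x + n2 • imv a b y + n3 • imv a b z) :
    Spans O x y z := by
  refine ⟨hx, hy, hz, fun u hu => ?_⟩
  obtain ⟨n1, n2, n3, e⟩ := h u hu
  have e1 := congrFun e 0
  have e2 := congrFun e 1
  have e3 := congrFun e 2
  simp [imv] at e1 e2 e3
  obtain ⟨n0, h0⟩ := scalar_int hO (sub_mem hu (comb_mem hx hy hz 0 n1 n2 n3))
    (by simp [comb, e1]) (by simp [comb, e2]) (by simp [comb, e3])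
  refine ⟨n0, n1, n2, n3, ?_⟩
  ext
  · simp [comb] at h0 ⊢; linarith
  · simp [comb, e1]
  · simp [comb, e2]
  · simp [comb, e3]

lemma exists_spans {O : Subring ℍ[ℚ,a,b]} (hO : O.toAddSubgroup.FG) :
    ∃ x y z, Spans O x y z := by
  let L : Submodule ℤ (Fin 3 → ℚ) := (O.toAddSubgroup.toIntSubmodule).map (imv a b)
  have hL : L.FG := by
    refine Submodule.FG.map _ ?_
    rw [Submodule.fg_iff_addSubgroup_fg]
    simpa using hO
  have : Module.Finite ℤ L := Module.Finite.iff_fg.mpr hL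
  have : Module.Free ℤ L := inferInstance
  obtain ⟨n, B, hn⟩ : ∃ (n : ℕ) (_ : Module.Basis (Fin n) ℤ L), n ≤ 3 := by
    refine ⟨_, Module.finBasis ℤ L, ?_⟩
    have h1 : LinearIndependent ℤ (fun i => ((Module.finBasis ℤ L i : L) : Fin 3 → ℚ)) :=
      (Module.finBasis ℤ L).linearIndependent.map' L.subtype (Submodule.ker_subtype _)
    have h2 := (LinearIndependent.iff_fractionRing ℤ ℚ).mp h1
    have h3 := h2.fintype_card_le_finrank
    simpa using h3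
  have hX : ∀ i, ∃ X ∈ O, imv a b X = (B i : Fin 3 → ℚ) := fun i => (B i).2
  choose X hXO hX using hX
  have hu : ∀ u ∈ O, ∃ c : Fin n → ℤ, imv a b u = ∑ i, c i • imv a b (X i) := by
    intro u hu
    have hm : imv a b u ∈ L := ⟨u, hu, rfl⟩
    refine ⟨fun i => B.repr ⟨_, hm⟩ i, ?_⟩
    have := congrArg (fun v : L => (v : Fin 3 → ℚ)) (B.sum_repr ⟨_, hm⟩)
    simp only [hX]
    simp only [Submodule.coe_sum, Submodule.coe_smul] at this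
    exact this.symm
  interval_cases n
  · refine ⟨0, 0, 0, spans_of hO (zero_mem O) (zero_mem O) (zero_mem O) fun u h => ?_⟩
    obtain ⟨c, hc⟩ := hu u h
    exact ⟨0, 0, 0, by simpa using hc⟩
  · refine ⟨X 0, 0, 0, spans_of hO (hXO 0) (zero_mem O) (zero_mem O) fun u h => ?_⟩
    obtain ⟨c, hc⟩ := hu u h
    exact ⟨c 0, 0, 0, by simpa using hc⟩
  · refine ⟨X 0, X 1, 0, spans_of hO (hXO 0) (hXO 1) (zero_mem O) fun u h => ?_⟩
    obtain ⟨c, hc⟩ := hu u h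
    exact ⟨c 0, c 1, 0, by simpa using hc⟩
  · refine ⟨X 0, X 1, X 2, spans_of hO (hXO 0) (hXO 1) (hXO 2) fun u h => ?_⟩
    obtain ⟨c, hc⟩ := hu u h
    exact ⟨c 0, c 1, c 2, by simpa [Fin.sum_univ_three] using hc⟩

lemma rat_comb {O : Subring ℍ[ℚ,a,b]} (hO : IsOrder O) {x y z : ℍ[ℚ,a,b]} (h : Spans O x y z)
    (u : ℍ[ℚ,a,b]) : ∃ r0 r1 r2 r3 : ℚ, u = comb x y z r0 r1 r2 r3 := by
  have hu : u ∈ Submodule.span ℚ (O : Set ℍ[ℚ,a,b]) := by rw [hO.2]; trivial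
  induction hu using Submodule.span_induction with
  | mem v hv =>
    obtain ⟨n0, n1, n2, n3, e⟩ := h.2.2.2 v hv
    exact ⟨_, _, _, _, e⟩
  | zero => exact ⟨0, 0, 0, 0, by simp [comb]⟩
  | add u v _ _ hu hv =>
    obtain ⟨r0, r1, r2, r3, rfl⟩ := hu
    obtain ⟨s0, s1, s2, s3, rfl⟩ := hv
    exact ⟨r0 + s0, r1 + s1, r2 + s2, r3 + s3, by simp only [comb, add_smul]; abel⟩
  | smul c u _ hu =>
    obtain ⟨r0, r1, r2, r3, rfl⟩ := hu
    exact ⟨c * r0, c * r1, c * r2, c * r3, by simp only [comb, smul_add, smul_smul]⟩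

lemma tau_comb_det (x y z : ℍ[ℚ,a,b]) (r0 r1 r2 r3 s0 s1 s2 s3 t0 t1 t2 t3 : ℚ) :
    tau (comb x y z r0 r1 r2 r3) (comb x y z s0 s1 s2 s3) (comb x y z t0 t1 t2 t3) =
      (r1 * (s2 * t3 - s3 * t2) - r2 * (s1 * t3 - s3 * t1) + r3 * (s1 * t2 - s2 * t1))
        * tau x y z := by
  simp [tau_eq, comb]; ring

lemma tau_ne_zero (ha : a ≠ 0) (hb : b ≠ 0) {O : Subring ℍ[ℚ,a,b]} (hO : IsOrder O)
    {x y z : ℍ[ℚ,a,b]} (h : Spans O x y z) : tau x y z ≠ 0 := by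
  intro h0
  obtain ⟨r0, r1, r2, r3, e1⟩ := rat_comb hO h ⟨0, 1, 0, 0⟩
  obtain ⟨s0, s1, s2, s3, e2⟩ := rat_comb hO h ⟨0, 0, 1, 0⟩
  obtain ⟨t0, t1, t2, t3, e3⟩ := rat_comb hO h ⟨0, 0, 0, 1⟩
  have := tau_comb_det x y z r0 r1 r2 r3 s0 s1 s2 s3 t0 t1 t2 t3
  rw [← e1, ← e2, ← e3, h0, tau_eq] at this
  simp [ha, hb] at this

lemma exists_nat_smul_mem {O : Subring ℍ[ℚ,a,b]} (hO : IsOrder O) (w : ℍ[ℚ,a,b]) :
    ∃ m : ℕ, 0 < m ∧ (m : ℚ) • w ∈ O := by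
  obtain ⟨x, y, z, h⟩ := exists_spans hO.1
  obtain ⟨r0, r1, r2, r3, rfl⟩ := rat_comb hO h w
  refine ⟨r0.den * r1.den * r2.den * r3.den, ?_, ?_⟩
  · have := r0.den_pos; have := r1.den_pos; have := r2.den_pos; have := r3.den_pos
    positivity
  · have := comb_mem h.1 h.2.1 h.2.2.1 (r0.num * (r1.den * r2.den * r3.den))
      (r1.num * (r0.den * r2.den * r3.den)) (r2.num * (r0.den * r1.den * r3.den))
      (r3.num * (r0.den * r1.den * r2.den))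
    convert this using 1
    simp only [comb, smul_add, smul_smul]
    push_cast
    rw [← Rat.mul_den_eq_num r0, ← Rat.mul_den_eq_num r1, ← Rat.mul_den_eq_num r2,
      ← Rat.mul_den_eq_num r3]
    congr 1
    · congr 1
      · congr 1
        · congr 1; ring
        · congr 1; ring
      · congr 1; ring
    · congr 1; ring

/-- If `comb / q` lies in `O`, all coefficients are divisible by `q`. -/
lemma dvd_of_div_mem (ha : a ≠ 0) (hb : b ≠ 0) {O : Subring ℍ[ℚ,a,b]} (hO : IsOrder O)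
    {x y z : ℍ[ℚ,a,b]} (h : Spans O x y z) (q : ℤ) (hq : q ≠ 0) (n0 n1 n2 n3 : ℤ)
    (hm : (1 / q : ℚ) • comb x y z n0 n1 n2 n3 ∈ O) : q ∣ n0 ∧ q ∣ n1 ∧ q ∣ n2 ∧ q ∣ n3 := by
  obtain ⟨m0, m1, m2, m3, e⟩ := h.2.2.2 _ hm
  have hq' : (q : ℚ) ≠ 0 := by exact_mod_cast hq
  have ht := tau_ne_zero ha hb hO h
  have e' : comb x y z n0 n1 n2 n3 = comb x y z (q * m0) (q * m1) (q * m2) (q * m3) := by
    have : comb x y z n0 n1 n2 n3 = (q : ℚ) • ((1 / q : ℚ) • comb x y z n0 n1 n2 n3) := by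
      rw [smul_smul, mul_one_div_cancel hq', one_smul]
    rw [this, e]
    simp only [comb, smul_add, smul_smul]
  have e1 : (n1 : ℚ) = q * m1 := by
    have := tau_comb1 x y z n0 n1 n2 n3
    rw [e', tau_comb1] at this
    exact (mul_right_cancel₀ ht this).symm
  have e2 : (n2 : ℚ) = q * m2 := by
    have := tau_comb2 x y z n0 n1 n2 n3
    rw [e', tau_comb2] at this
    exact (mul_right_cancel₀ ht this).symm
  have e3 : (n3 : ℚ) = q * m3 := by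
    have := tau_comb3 x y z n0 n1 n2 n3
    rw [e', tau_comb3] at this
    exact (mul_right_cancel₀ ht this).symm
  have e0 : (n0 : ℚ) = q * m0 := by
    have := congrArg QuaternionAlgebra.re e'
    simp [comb, e1, e2, e3] at this
    exact this
  exact ⟨⟨m0, by exact_mod_cast e0⟩, ⟨m1, by exact_mod_cast e1⟩, ⟨m2, by exact_mod_cast e2⟩,
    ⟨m3, by exact_mod_cast e3⟩⟩

end Pool.Agent.H752Z.Gross
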