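import Pool.Agent.H752Z.Gross.B

namespace Pool.Agent.H752Z.Gross

open scoped Quaternion
open QuaternionAlgebra

lemma aniso_of_div {K : Type} [Field K] {a b : K} (h : IsDivision K a b) (c0 c1 c2 c3 : K)
    (hc : c0 ^ 2 - a * c1 ^ 2 - b * c2 ^ 2 + a * b * c3 ^ 2 = 0) :
    c0 = 0 ∧ c1 = 0 ∧ c2 = 0 ∧ c3 = 0 := by
  let ξ : ℍ[K,a,b] := ⟨c0, c1, c2, c3⟩
  by_cases h0 : ξ = 0
  · have e0 := congrArg QuaternionAlgebra.re h0
    have e1 := congrArg QuaternionAlgebra.imI h0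
    have e2 := congrArg QuaternionAlgebra.imJ h0
    have e3 := congrArg QuaternionAlgebra.imK h0
    exact ⟨e0, e1, e2, e3⟩
  · have hu := h ξ h0
    have e : ξ * star ξ = 0 := by
      ext <;> simp [ξ]
      · linear_combination hc
      · ring
      · ring
      · ring
    have := (hu.mul_right_eq_zero).mp e
    exact absurd (star_eq_zero.mp this) h0

lemma div_of_aniso {K : Type} [Field K] {a b : K}
    (h : ∀ c0 c1 c2 c3 : K, c0 ^ 2 - a * c1 ^ 2 - b * c2 ^ 2 + a * b * c3 ^ 2 = 0 →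
      c0 = 0 ∧ c1 = 0 ∧ c2 = 0 ∧ c3 = 0) : IsDivision K a b := by
  intro x hx
  have hN : x.re ^ 2 - a * x.imI ^ 2 - b * x.imJ ^ 2 + a * b * x.imK ^ 2 ≠ 0 := by
    intro h0
    obtain ⟨e0, e1, e2, e3⟩ := h _ _ _ _ h0
    exact hx (by ext <;> simp [e0, e1, e2, e3])
  set N := x.re ^ 2 - a * x.imI ^ 2 - b * x.imJ ^ 2 + a * b * x.imK ^ 2 with hNdef
  have e1 : x * star x = N • (1 : ℍ[K,a,b]) := by
    ext <;> simp [hNdef] <;> ring
  have e2 : star x * x = N • (1 : ℍ[K,a,b]) := by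
    ext <;> simp [hNdef] <;> ring
  refine ⟨⟨x, N⁻¹ • star x, ?_, ?_⟩, rfl⟩
  · rw [mul_smul_comm, e1, smul_smul, inv_mul_cancel₀ hN, one_smul]
  · rw [smul_mul_assoc, e2, smul_smul, inv_mul_cancel₀ hN, one_smul]

lemma neg_of_div {a b : ℚ} (h : IsDivision ℝ (a : ℝ) (b : ℝ)) : a < 0 ∧ b < 0 := by
  constructor
  · by_contra hn
    have ha : (0 : ℝ) ≤ a := by exact_mod_cast not_lt.mp hn
    have := aniso_of_div h (Real.sqrt a) 1 0 0 (by rw [Real.sq_sqrt ha]; ring)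
    exact one_ne_zero this.2.1
  · by_contra hn
    have hb : (0 : ℝ) ≤ b := by exact_mod_cast not_lt.mp hn
    have := aniso_of_div h (Real.sqrt b) 0 1 0 (by rw [Real.sq_sqrt hb]; ring)
    exact one_ne_zero this.2.2.1

variable {a b : ℚ}

/-- At a ramified prime the elements of norm divisible by `p` are closed under addition. -/
lemma dvd_tr_of_ramified {p : ℕ} [hp : Fact p.Prime]
    (h : IsDivision ℚ_[p] (a : ℚ_[p]) (b : ℚ_[p])) (x y : ℍ[ℚ,a,b]) (A C T : ℤ)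
    (hA : nr x = A) (hC : nr y = C) (hT : tr (x * star y) = T) (dA : (p : ℤ) ∣ A)
    (dC : (p : ℤ) ∣ C) : (p : ℤ) ∣ T := by
  by_contra dT
  have nT : ‖(T : ℤ_[p])‖ = 1 := by
    have h1 := PadicInt.norm_le_one (T : ℤ_[p])
    have h2 : ¬ ‖(T : ℤ_[p])‖ < 1 := by rwa [PadicInt.norm_int_lt_one_iff_dvd]
    linarith [not_lt.mp h2]
  have nA : ‖(A : ℤ_[p])‖ < 1 := (PadicInt.norm_int_lt_one_iff_dvd A).mpr dA
  have nC : ‖(C : ℤ_[p])‖ < 1 := (PadicInt.norm_int_lt_one_iff_dvd C).mpr dC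
  let F : Polynomial ℤ := Polynomial.C C * Polynomial.X ^ 2 + Polynomial.C T * Polynomial.X
    + Polynomial.C A
  have hnorm : ‖F.aeval (0 : ℤ_[p])‖ < ‖F.derivative.aeval (0 : ℤ_[p])‖ ^ 2 := by
    simp [F, nT, nA]
  obtain ⟨z, hz, -, -, -⟩ := hensels_lemma hnorm
  have hz' : (C : ℚ_[p]) * (z : ℚ_[p]) ^ 2 + (T : ℚ_[p]) * z + A = 0 := by
    have : (C : ℤ_[p]) * z ^ 2 + (T : ℤ_[p]) * z + A = 0 := by simpa [F] using hz
    have := congrArg (fun t : ℤ_[p] => (t : ℚ_[p])) this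
    simpa using this
  have hA' : (A : ℚ_[p]) = (x.re : ℚ_[p]) ^ 2 - a * (x.imI : ℚ_[p]) ^ 2 - b * (x.imJ : ℚ_[p]) ^ 2
      + a * b * (x.imK : ℚ_[p]) ^ 2 := by
    rw [nr_eq] at hA; exact_mod_cast hA.symm
  have hC' : (C : ℚ_[p]) = (y.re : ℚ_[p]) ^ 2 - a * (y.imI : ℚ_[p]) ^ 2 - b * (y.imJ : ℚ_[p]) ^ 2
      + a * b * (y.imK : ℚ_[p]) ^ 2 := by
    rw [nr_eq] at hC; exact_mod_cast hC.symm
  have hT0 : tr (x * star y) = 2 * (x.re * y.re - a * x.imI * y.imI - b * x.imJ * y.imJ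
      + a * b * x.imK * y.imK) := by simp [tr_eq]; ring
  have hT' : (T : ℚ_[p]) = 2 * ((x.re : ℚ_[p]) * y.re - a * x.imI * y.imI - b * x.imJ * y.imJ
      + a * b * x.imK * y.imK) := by
    rw [hT0] at hT; exact_mod_cast hT.symm
  obtain ⟨e0, e1, e2, e3⟩ := aniso_of_div h ((x.re : ℚ_[p]) + z * y.re) ((x.imI : ℚ_[p]) + z * y.imI)
    ((x.imJ : ℚ_[p]) + z * y.imJ) ((x.imK : ℚ_[p]) + z * y.imK)
    (by rw [hA', hC', hT'] at hz'; linear_combination hz')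
  have e : (T : ℚ_[p]) = -2 * z * C := by
    rw [hT', hC']
    linear_combination 2 * (y.re : ℚ_[p]) * e0 - 2 * a * y.imI * e1 - 2 * b * y.imJ * e2
      + 2 * a * b * y.imK * e3
  have e' : (T : ℤ_[p]) = -2 * z * C := by
    apply Subtype.ext
    push_cast
    exact e
  rw [e', norm_mul] at nT
  have := PadicInt.norm_le_one (-2 * z)
  nlinarith [norm_nonneg (-2 * z), norm_nonneg (C : ℤ_[p])]

/-- a quaternary integral quadratic form -/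
def Q4 {R : Type} [CommRing R] (A1 A2 A3 T1 T2 T3 T12 T13 T23 : ℤ) (c0 c1 c2 c3 : R) : R :=
  c0 ^ 2 + A1 * c1 ^ 2 + A2 * c2 ^ 2 + A3 * c3 ^ 2 + T1 * c0 * c1 + T2 * c0 * c2 + T3 * c0 * c3
    + T12 * c1 * c2 + T13 * c1 * c3 + T23 * c2 * c3

lemma approx_zero {q : ℕ} [hq : Fact q.Prime] (A1 A2 A3 T1 T2 T3 T12 T13 T23 : ℤ)
    (c : Fin 4 → ℚ_[q]) (hc : c ≠ 0)
    (h : Q4 A1 A2 A3 T1 T2 T3 T12 T13 T23 (c 0) (c 1) (c 2) (c 3) = 0) :
    ∃ n : Fin 4 → ℤ, (∃ i, ¬ (q : ℤ) ∣ n i) ∧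
      (q : ℤ) ^ 2 ∣ Q4 A1 A2 A3 T1 T2 T3 T12 T13 T23 (n 0) (n 1) (n 2) (n 3) := by
  obtain ⟨i, hi⟩ := Finite.exists_max (fun i => ‖c i‖)
  have hci : c i ≠ 0 := by
    intro h0
    apply hc
    ext j
    have := hi j
    simp only [h0, norm_zero] at this
    simpa using le_antisymm this (norm_nonneg _)
  have hpos : 0 < ‖c i‖ := norm_pos_iff.mpr hci
  let d : Fin 4 → ℤ_[q] := fun j => ⟨c j / c i, by
    rw [norm_div, div_le_one hpos]; exact hi j⟩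
  have hd : Q4 A1 A2 A3 T1 T2 T3 T12 T13 T23 (d 0) (d 1) (d 2) (d 3) = 0 := by
    apply Subtype.ext
    simp only [Q4, d] at h ⊢
    push_cast
    field_simp
    linear_combination h
  have hdi : d i = 1 := by
    apply Subtype.ext
    simp [d, hci]
  have hs : ∀ j, ∃ n : ℤ, (n : ZMod (q ^ 2)) = PadicInt.toZModPow 2 (d j) := fun j =>
    ZMod.intCast_surjective _
  choose n hn using hs
  refine ⟨n, ⟨i, fun hdv => ?_⟩, ?_⟩
  · have h1 : ((n i - 1 : ℤ) : ZMod (q ^ 2)) = 0 := by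
      push_cast; rw [hn, hdi, map_one, sub_self]
    rw [ZMod.intCast_zmod_eq_zero_iff_dvd] at h1
    have h2 : (q : ℤ) ∣ n i - 1 := dvd_trans (by push_cast; exact dvd_pow_self _ two_ne_zero) h1
    have h3 : (q : ℤ) ∣ 1 := by
      have := dvd_sub hdv h2
      simpa using this
    have h4 := Int.eq_one_of_dvd_one (by positivity) h3
    have := hq.out.one_lt
    omega
  · have h1 := congrArg (PadicInt.toZModPow 2) hd
    have h2 : ((Q4 A1 A2 A3 T1 T2 T3 T12 T13 T23 (n 0) (n 1) (n 2) (n 3) : ℤ) : ZMod (q ^ 2)) = 0 := by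
      simp only [Q4] at h1 ⊢
      push_cast
      simp only [hn]
      simpa using h1
    rw [ZMod.intCast_zmod_eq_zero_iff_dvd] at h2
    exact_mod_cast h2

lemma exists_split {q : ℕ} [hq : Fact q.Prime]
    (h : ¬ IsDivision ℚ_[q] (a : ℚ_[q]) (b : ℚ_[q])) (ha : a ≠ 0) (hb : b ≠ 0)
    {O : Subring ℍ[ℚ,a,b]} (hO : IsOrder O) :
    ∃ v ∈ O, (1 / q : ℚ) • v ∉ O ∧ ∃ m : ℤ, nr v = q ^ 2 * m := by
  obtain ⟨x, y, z, hs⟩ := exists_spans hO.1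
  have h' : ∃ c0 c1 c2 c3 : ℚ_[q], c0 ^ 2 - a * c1 ^ 2 - b * c2 ^ 2 + a * b * c3 ^ 2 = 0 ∧
      ¬ (c0 = 0 ∧ c1 = 0 ∧ c2 = 0 ∧ c3 = 0) := by
    by_contra hn
    push Not at hn
    exact h (div_of_aniso fun c0 c1 c2 c3 hc => by
      have := hn c0 c1 c2 c3 hc
      exact this)
  obtain ⟨c0, c1, c2, c3, hc, hne⟩ := h'
  obtain ⟨r0, r1, r2, r3, e1⟩ := rat_comb hO hs ⟨0, 1, 0, 0⟩
  obtain ⟨s0, s1, s2, s3, e2⟩ := rat_comb hO hs ⟨0, 0, 1, 0⟩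
  obtain ⟨t0, t1, t2, t3, e3⟩ := rat_comb hO hs ⟨0, 0, 0, 1⟩
  obtain ⟨A1, hA1⟩ := nr_int hO.1 hs.1
  obtain ⟨A2, hA2⟩ := nr_int hO.1 hs.2.1
  obtain ⟨A3, hA3⟩ := nr_int hO.1 hs.2.2.1
  obtain ⟨T1, hT1⟩ := tr_int hO.1 hs.1
  obtain ⟨T2, hT2⟩ := tr_int hO.1 hs.2.1
  obtain ⟨T3, hT3⟩ := tr_int hO.1 hs.2.2.1
  obtain ⟨T12, hT12⟩ := tr_int hO.1 (mul_mem hs.1 (star_mem' hO.1 hs.2.1))
  obtain ⟨T13, hT13⟩ := tr_int hO.1 (mul_mem hs.1 (star_mem' hO.1 hs.2.2.1))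
  obtain ⟨T23, hT23⟩ := tr_int hO.1 (mul_mem hs.2.1 (star_mem' hO.1 hs.2.2.1))
  -- the form in any field of characteristic zero
  have hform : ∀ (K : Type) [Field K] [CharZero K] (d0 d1 d2 d3 : K),
      Q4 A1 A2 A3 T1 T2 T3 T12 T13 T23 d0 d1 d2 d3 =
        (d0 + d1 * x.re + d2 * y.re + d3 * z.re) ^ 2
        - a * (d1 * x.imI + d2 * y.imI + d3 * z.imI) ^ 2
        - b * (d1 * x.imJ + d2 * y.imJ + d3 * z.imJ) ^ 2
        + a * b * (d1 * x.imK + d2 * y.imK + d3 * z.imK) ^ 2 := by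
    intro K _ _ d0 d1 d2 d3
    have k : ∀ (n : ℤ) (r : ℚ), r = n → (n : K) = (r : K) := by
      intro n r e; rw [e]; simp
    simp only [Q4, k _ _ hA1, k _ _ hA2, k _ _ hA3, k _ _ hT1, k _ _ hT2, k _ _ hT3, k _ _ hT12,
      k _ _ hT13, k _ _ hT23]
    simp [nr_eq, tr_eq]
    ring
  have cast4 : ∀ (u : ℍ[ℚ,a,b]) (r0 r1 r2 r3 : ℚ), u = comb x y z r0 r1 r2 r3 →
      ((u.re : ℚ_[q]) = r0 + r1 * x.re + r2 * y.re + r3 * z.re ∧
      (u.imI : ℚ_[q]) = r1 * x.imI + r2 * y.imI + r3 * z.imI ∧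
      (u.imJ : ℚ_[q]) = r1 * x.imJ + r2 * y.imJ + r3 * z.imJ ∧
      (u.imK : ℚ_[q]) = r1 * x.imK + r2 * y.imK + r3 * z.imK) := by
    intro u r0 r1 r2 r3 e
    rw [e]; simp [comb]
  obtain ⟨f10, f11, f12, f13⟩ := cast4 _ _ _ _ _ e1
  obtain ⟨f20, f21, f22, f23⟩ := cast4 _ _ _ _ _ e2
  obtain ⟨f30, f31, f32, f33⟩ := cast4 _ _ _ _ _ e3
  simp only [Rat.cast_zero, Rat.cast_one] at f10 f11 f12 f13 f20 f21 f22 f23 f30 f31 f32 f33
  let d : Fin 4 → ℚ_[q] := ![c0 + c1 * r0 + c2 * s0 + c3 * t0, c1 * r1 + c2 * s1 + c3 * t1,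
    c1 * r2 + c2 * s2 + c3 * t2, c1 * r3 + c2 * s3 + c3 * t3]
  have g0 : d 0 + d 1 * x.re + d 2 * y.re + d 3 * z.re = c0 := by
    simp [d]; linear_combination -c1 * f10 - c2 * f20 - c3 * f30
  have g1 : d 1 * x.imI + d 2 * y.imI + d 3 * z.imI = c1 := by
    simp [d]; linear_combination -c1 * f11 - c2 * f21 - c3 * f31
  have g2 : d 1 * x.imJ + d 2 * y.imJ + d 3 * z.imJ = c2 := by
    simp [d]; linear_combination -c1 * f12 - c2 * f22 - c3 * f32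
  have g3 : d 1 * x.imK + d 2 * y.imK + d 3 * z.imK = c3 := by
    simp [d]; linear_combination -c1 * f13 - c2 * f23 - c3 * f33
  have hd : d ≠ 0 := by
    intro h0
    rw [h0] at g0 g1 g2 g3
    simp at g0 g1 g2 g3
    exact hne ⟨g0.symm, g1.symm, g2.symm, g3.symm⟩
  obtain ⟨n, ⟨i, hi⟩, m, hm⟩ := approx_zero A1 A2 A3 T1 T2 T3 T12 T13 T23 d hd
    (by rw [hform, g0, g1, g2, g3, hc])
  refine ⟨comb x y z (n 0) (n 1) (n 2) (n 3), comb_mem hs.1 hs.2.1 hs.2.2.1 _ _ _ _, ?_, m, ?_⟩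
  · intro hmem
    have hq0 : (q : ℤ) ≠ 0 := by exact_mod_cast hq.out.ne_zero
    obtain ⟨k0, k1, k2, k3⟩ := dvd_of_div_mem ha hb hO hs q hq0 _ _ _ _ (by simpa using hmem)
    fin_cases i
    · exact hi k0
    · exact hi k1
    · exact hi k2
    · exact hi k3
  · have e := hform ℚ (n 0) (n 1) (n 2) (n 3)
    have e' : Q4 A1 A2 A3 T1 T2 T3 T12 T13 T23 (n 0 : ℚ) (n 1) (n 2) (n 3) =
        ((Q4 A1 A2 A3 T1 T2 T3 T12 T13 T23 (n 0) (n 1) (n 2) (n 3) : ℤ) : ℚ) := by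
      simp [Q4]
    rw [e', hm] at e
    push_cast at e
    rw [e]
    simp [nr_eq, comb]

/-- Chevalley–Warning for a ternary form. -/
lemma ternary_zero (p : ℕ) [hp : Fact p.Prime] (A B C D E F : ℤ) :
    ∃ s t u : ℤ, ¬ ((p : ℤ) ∣ s ∧ (p : ℤ) ∣ t ∧ (p : ℤ) ∣ u) ∧
      (p : ℤ) ∣ A * s ^ 2 + B * t ^ 2 + C * u ^ 2 + D * s * t + E * s * u + F * t * u := by
  classical
  let f : MvPolynomial (Fin 3) (ZMod p) :=
    MvPolynomial.C (A : ZMod p) * (MvPolynomial.X 0 * MvPolynomial.X 0)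
    + MvPolynomial.C (B : ZMod p) * (MvPolynomial.X 1 * MvPolynomial.X 1)
    + MvPolynomial.C (C : ZMod p) * (MvPolynomial.X 2 * MvPolynomial.X 2)
    + MvPolynomial.C (D : ZMod p) * (MvPolynomial.X 0 * MvPolynomial.X 1)
    + MvPolynomial.C (E : ZMod p) * (MvPolynomial.X 0 * MvPolynomial.X 2)
    + MvPolynomial.C (F : ZMod p) * (MvPolynomial.X 1 * MvPolynomial.X 2)
  have hm : ∀ (c : ZMod p) (i j : Fin 3),
      (MvPolynomial.C c * (MvPolynomial.X i * MvPolynomial.X j) :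
        MvPolynomial (Fin 3) (ZMod p)).totalDegree ≤ 2 := by
    intro c i j
    refine (MvPolynomial.totalDegree_mul _ _).trans ?_
    have := MvPolynomial.totalDegree_mul (MvPolynomial.X i : MvPolynomial (Fin 3) (ZMod p))
      (MvPolynomial.X j)
    simp only [MvPolynomial.totalDegree_X, MvPolynomial.totalDegree_C] at this ⊢
    omega
  have hadd : ∀ f g : MvPolynomial (Fin 3) (ZMod p), f.totalDegree ≤ 2 → g.totalDegree ≤ 2 →
      (f + g).totalDegree ≤ 2 := fun f g hf hg =>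
    (MvPolynomial.totalDegree_add f g).trans (max_le hf hg)
  have hdeg : f.totalDegree < Fintype.card (Fin 3) := by
    have : f.totalDegree ≤ 2 :=
      hadd _ _ (hadd _ _ (hadd _ _ (hadd _ _ (hadd _ _ (hm _ _ _) (hm _ _ _)) (hm _ _ _))
        (hm _ _ _)) (hm _ _ _)) (hm _ _ _)
    simp; omega
  have hdvd := char_dvd_card_solutions p hdeg
  have h0 : MvPolynomial.eval (0 : Fin 3 → ZMod p) f = 0 := by simp [f]
  have hlt : 1 < Fintype.card {x : Fin 3 → ZMod p // MvPolynomial.eval x f = 0} := by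
    have hpos : 0 < Fintype.card {x : Fin 3 → ZMod p // MvPolynomial.eval x f = 0} :=
      Fintype.card_pos_iff.mpr ⟨⟨0, h0⟩⟩
    exact lt_of_lt_of_le hp.out.one_lt (Nat.le_of_dvd hpos hdvd)
  obtain ⟨⟨v, hv⟩, hne⟩ := Fintype.exists_ne_of_one_lt_card hlt ⟨0, h0⟩
  obtain ⟨s, hs⟩ := ZMod.intCast_surjective (v 0)
  obtain ⟨t, ht⟩ := ZMod.intCast_surjective (v 1)
  obtain ⟨u, hu⟩ := ZMod.intCast_surjective (v 2)
  refine ⟨s, t, u, ?_, ?_⟩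
  · rintro ⟨h1, h2, h3⟩
    rw [← ZMod.intCast_zmod_eq_zero_iff_dvd] at h1 h2 h3
    apply hne
    apply Subtype.ext
    ext i
    fin_cases i
    · simp [← hs, h1]
    · simp [← ht, h2]
    · simp [← hu, h3]
  · rw [← ZMod.intCast_zmod_eq_zero_iff_dvd]
    push_cast
    rw [hs, ht, hu]
    simp [f] at hv
    linear_combination hv

end Pool.Agent.H752Z.Gross
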