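import Pool.Agent.H752Z.Gross.C

namespace Pool.Agent.H752Z.Gross

open scoped Quaternion
open QuaternionAlgebra

variable {a b : ℚ}

/-- `r` is an integer multiple of `q` -/
def Dv (q : ℤ) (r : ℚ) : Prop := ∃ m : ℤ, r = q * m

lemma Dual.mul {O : Subring ℍ[ℚ,a,b]} {w u : ℍ[ℚ,a,b]} (hw : Dual O w) (hu : u ∈ O) :
    Dual O (w * u) := fun v hv => by
  rw [mul_assoc]; exact hw _ (mul_mem hu hv)

lemma Dual.smul {O : Subring ℍ[ℚ,a,b]} {w : ℍ[ℚ,a,b]} (hw : Dual O w) (n : ℤ) :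
    Dual O ((n : ℚ) • w) := fun v hv => by
  obtain ⟨m, hm⟩ := hw v hv
  exact ⟨n * m, by rw [smul_mul_assoc, tr_smul, hm]; push_cast; ring⟩

lemma exists_odd_tr (ha : a ≠ 0) (hb : b ≠ 0) {O : Subring ℍ[ℚ,a,b]} (hO : IsMaximalOrder O) :
    ∃ u ∈ O, ∃ t : ℤ, tr u = t ∧ ¬ (2 : ℤ) ∣ t := by
  by_contra hn
  push Not at hn
  have hev : ∀ u ∈ O, ∃ t : ℤ, tr u = 2 * t := by
    intro u hu
    obtain ⟨t, ht⟩ := tr_int hO.1.1 hu
    obtain ⟨s, hs⟩ := hn u hu t ht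
    exact ⟨s, by rw [ht, hs]; push_cast; ring⟩
  obtain ⟨x, y, z, hs⟩ := exists_spans hO.1.1
  have key : ∀ n0 n1 n2 n3 : ℤ, Dv 4 (nr (comb x y z n0 n1 n2 n3)) →
      (2 : ℤ) ∣ n0 ∧ (2 : ℤ) ∣ n1 ∧ (2 : ℤ) ∣ n2 ∧ (2 : ℤ) ∣ n3 := by
    rintro n0 n1 n2 n3 ⟨m, hm⟩
    have hc := comb_mem hs.1 hs.2.1 hs.2.2.1 n0 n1 n2 n3
    refine dvd_of_div_mem ha hb hO.1 hs 2 two_ne_zero _ _ _ _ (mem_of_dual hO ?_ ⟨m, ?_⟩)
    · intro u hu
      obtain ⟨t, ht⟩ := hev _ (mul_mem hc hu)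
      exact ⟨t, by rw [smul_mul_assoc, tr_smul, ht]; push_cast; ring⟩
    · rw [nr_smul, hm]; push_cast; ring
  obtain ⟨A1, hA1⟩ := nr_int hO.1.1 hs.1
  obtain ⟨A2, hA2⟩ := nr_int hO.1.1 hs.2.1
  obtain ⟨A3, hA3⟩ := nr_int hO.1.1 hs.2.2.1
  obtain ⟨T1, hT1⟩ := hev _ hs.1
  obtain ⟨T2, hT2⟩ := hev _ hs.2.1
  obtain ⟨T3, hT3⟩ := hev _ hs.2.2.1
  obtain ⟨T12, hT12⟩ := hev _ (mul_mem hs.1 (star_mem' hO.1.1 hs.2.1))
  obtain ⟨T13, hT13⟩ := hev _ (mul_mem hs.1 (star_mem' hO.1.1 hs.2.2.1))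
  obtain ⟨T23, hT23⟩ := hev _ (mul_mem hs.2.1 (star_mem' hO.1.1 hs.2.2.1))
  have hform : ∀ n0 n1 n2 n3 : ℤ, nr (comb x y z n0 n1 n2 n3) =
      ((n0 ^ 2 + A1 * n1 ^ 2 + A2 * n2 ^ 2 + A3 * n3 ^ 2 + 2 * T1 * n0 * n1 + 2 * T2 * n0 * n2
        + 2 * T3 * n0 * n3 + 2 * T12 * n1 * n2 + 2 * T13 * n1 * n3 + 2 * T23 * n2 * n3 : ℤ) : ℚ) := by
    intro n0 n1 n2 n3
    push_cast
    rw [← hA1, ← hA2, ← hA3, ← hT1, ← hT2, ← hT3, ← hT12, ← hT13, ← hT23]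
    simp [nr_eq, tr_eq, comb]
    ring
  have key' : ∀ n0 n1 n2 n3 : ℤ, (4 : ℤ) ∣ (n0 ^ 2 + A1 * n1 ^ 2 + A2 * n2 ^ 2 + A3 * n3 ^ 2
      + 2 * T1 * n0 * n1 + 2 * T2 * n0 * n2 + 2 * T3 * n0 * n3 + 2 * T12 * n1 * n2
      + 2 * T13 * n1 * n3 + 2 * T23 * n2 * n3) →
      (2 : ℤ) ∣ n0 ∧ (2 : ℤ) ∣ n1 ∧ (2 : ℤ) ∣ n2 ∧ (2 : ℤ) ∣ n3 := by
    rintro n0 n1 n2 n3 ⟨m, hm⟩
    exact key n0 n1 n2 n3 ⟨m, by rw [hform, hm]; push_cast; ring⟩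
  have k : ∀ n0 n1 n2 n3 : ℤ, (n1 = 1 ∨ n2 = 1 ∨ n3 = 1) →
      ¬ (4 : ℤ) ∣ (n0 ^ 2 + A1 * n1 ^ 2 + A2 * n2 ^ 2 + A3 * n3 ^ 2
      + 2 * T1 * n0 * n1 + 2 * T2 * n0 * n2 + 2 * T3 * n0 * n3 + 2 * T12 * n1 * n2
      + 2 * T13 * n1 * n3 + 2 * T23 * n2 * n3) := by
    intro n0 n1 n2 n3 h1 h2
    have := key' _ _ _ _ h2
    omega
  have fin : ∀ e1 e2 e3 e12 e13 e23 e123 : ℤ, e12 = e1 + e2 → e13 = e1 + e3 → e23 = e2 + e3 →
      e123 = e1 + e2 + e3 → (e1 = 0 ∨ e1 = 1) → (e2 = 0 ∨ e2 = 1) → (e3 = 0 ∨ e3 = 1) →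
      A1 % 2 = e1 → A2 % 2 = e2 → A3 % 2 = e3 → False := by
    intro e1 e2 e3 e12 e13 e23 e123 q12 q13 q23 q123 c1 c2 c3 p1 p2 p3
    have h1 := k e1 1 0 0 (by simp)
    have h2 := k e2 0 1 0 (by simp)
    have h3 := k e3 0 0 1 (by simp)
    have h4 := k e12 1 1 0 (by simp)
    have h5 := k e13 1 0 1 (by simp)
    have h6 := k e23 0 1 1 (by simp)
    have h7 := k e123 1 1 1 (by simp)
    rcases c1 with rfl | rfl <;> rcases c2 with rfl | rfl <;> rcases c3 with rfl | rfl <;>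
      norm_num at q12 q13 q23 q123 <;> subst q12 q13 q23 q123 <;> omega
  exact fin _ _ _ _ _ _ _ rfl rfl rfl rfl (Int.emod_two_eq_zero_or_one A1)
    (Int.emod_two_eq_zero_or_one A2) (Int.emod_two_eq_zero_or_one A3) rfl rfl rfl

lemma exists_tr_coprime (ha : a ≠ 0) (hb : b ≠ 0) {O : Subring ℍ[ℚ,a,b]} (hO : IsMaximalOrder O)
    {q : ℕ} (hq : q.Prime) : ∃ u ∈ O, ∃ t : ℤ, tr u = t ∧ IsCoprime (q : ℤ) t := by
  have hq' : Prime (q : ℤ) := Nat.prime_iff_prime_int.mp hq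
  by_cases h2 : q = 2
  · obtain ⟨u, hu, t, ht, hd⟩ := exists_odd_tr ha hb hO
    exact ⟨u, hu, t, ht, hq'.irreducible.coprime_iff_not_dvd.mpr (by subst h2; exact hd)⟩
  · refine ⟨1, one_mem O, 2, by simp [tr_eq], hq'.irreducible.coprime_iff_not_dvd.mpr ?_⟩
    intro hd
    have : q ∣ 2 := by exact_mod_cast hd
    exact h2 ((Nat.prime_dvd_prime_iff_eq hq Nat.prime_two).mp this)

lemma nr_dvd_of_dual (ha : a ≠ 0) (hb : b ≠ 0) {O : Subring ℍ[ℚ,a,b]} (hO : IsMaximalOrder O)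
    {q : ℕ} (hq : q.Prime) (e : ℕ) {v : ℍ[ℚ,a,b]} (hv : Dual O v)
    (hx : ((q : ℚ) ^ e) • v ∈ O) : Dv ((q : ℤ) ^ e) (nr (((q : ℚ) ^ e) • v)) := by
  obtain ⟨u, hu, t, ht, hc⟩ := exists_tr_coprime ha hb hO hq
  obtain ⟨A, hA⟩ := nr_int hO.1.1 hx
  obtain ⟨n, hn⟩ := hv _ (mul_mem (star_mem' hO.1.1 hx) hu)
  have e1 : ((q : ℚ) ^ e) * n = A * t := by
    rw [← hn, ← hA, ← ht, ← tr_smul, ← smul_mul_assoc, ← mul_assoc, mul_star_eq, smul_mul_assoc,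
      one_mul, tr_smul]
  have e2 : (q : ℤ) ^ e * n = A * t := by exact_mod_cast e1
  have e3 : (q : ℤ) ^ e ∣ A := (hc.pow_left (m := e)).dvd_of_dvd_mul_right ⟨n, e2.symm⟩
  obtain ⟨m, hm⟩ := e3
  exact ⟨m, by rw [hA, hm]; push_cast; ring⟩

lemma tr_dvd_of_add {O : Subring ℍ[ℚ,a,b]} (hO : O.toAddSubgroup.FG) {q : ℕ} (hq : q.Prime)
    (hadd : ∀ z ∈ O, ∀ z' ∈ O, Dv q (nr z) → Dv q (nr z') → Dv q (nr (z + z')))
    {s : ℍ[ℚ,a,b]} (hs : s ∈ O) (hn : Dv q (nr s)) : Dv q (tr s) := by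
  have hq' : Prime (q : ℤ) := Nat.prime_iff_prime_int.mp hq
  obtain ⟨m, hm⟩ := hadd s hs (star s) (star_mem' hO hs) hn (by rwa [nr_star])
  obtain ⟨t, ht⟩ := tr_int hO hs
  have e : nr (s + star s) = tr s ^ 2 := by simp [nr_eq, tr_eq]; ring
  rw [e, ht] at hm
  have e2 : t ^ 2 = q * m := by exact_mod_cast hm
  obtain ⟨k, hk⟩ := hq'.dvd_of_dvd_pow (show (q : ℤ) ∣ t ^ 2 from ⟨m, e2⟩)
  exact ⟨k, by rw [ht, hk]; push_cast; ring⟩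

lemma Dv.mul_nr {O : Subring ℍ[ℚ,a,b]} (hO : O.toAddSubgroup.FG) {q : ℤ} {z u : ℍ[ℚ,a,b]}
    (hz : Dv q (nr z)) (hu : u ∈ O) : Dv q (nr (z * u)) := by
  obtain ⟨m, hm⟩ := hz
  obtain ⟨k, hk⟩ := nr_int hO hu
  exact ⟨m * k, by rw [nr_mul, hm, hk]; push_cast; ring⟩

lemma dual_of_add {O : Subring ℍ[ℚ,a,b]} (hO : O.toAddSubgroup.FG) {q : ℕ} (hq : q.Prime)
    (hadd : ∀ z ∈ O, ∀ z' ∈ O, Dv q (nr z) → Dv q (nr z') → Dv q (nr (z + z')))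
    {z : ℍ[ℚ,a,b]} (hz : z ∈ O) (hn : Dv q (nr z)) : Dual O ((1 / q : ℚ) • z) := by
  intro u hu
  obtain ⟨k, hk⟩ := tr_dvd_of_add hO hq hadd (mul_mem hz hu) (hn.mul_nr hO hu)
  have hq0 : (q : ℚ) ≠ 0 := by exact_mod_cast hq.ne_zero
  exact ⟨k, by rw [smul_mul_assoc, tr_smul, hk]; push_cast; field_simp⟩

lemma mem_of_unramified (ha : a ≠ 0) (hb : b ≠ 0) {O : Subring ℍ[ℚ,a,b]} (hO : IsMaximalOrder O)
    {q : ℕ} [hq : Fact q.Prime] (h : ¬ IsDivision ℚ_[q] (a : ℚ_[q]) (b : ℚ_[q]))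
    {v : ℍ[ℚ,a,b]} (hv : Dual O v) (hx : (q : ℚ) • v ∈ O) : v ∈ O := by
  by_contra hvO
  have hq0 : (q : ℚ) ≠ 0 := by exact_mod_cast hq.out.ne_zero
  have hq' : Prime (q : ℤ) := Nat.prime_iff_prime_int.mp hq.out
  obtain ⟨n, hn⟩ := nr_dvd_of_dual ha hb hO hq.out 1 hv (by simpa using hx)
  have hnv : (q : ℚ) * nr v = n := by
    rw [pow_one, nr_smul] at hn
    push_cast at hn
    apply mul_left_cancel₀ hq0
    linear_combination hn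
  have h2 : ∀ z ∈ O, Dv q (nr z) → v * z ∈ O := by
    rintro z hz ⟨m, hm⟩
    refine mem_of_dual hO (hv.mul hz) ⟨n * m, ?_⟩
    rw [nr_mul, hm]; push_cast; rw [← hnv]; ring
  have hadd : ∀ z ∈ O, ∀ z' ∈ O, Dv q (nr z) → Dv q (nr z') → Dv q (nr (z + z')) := by
    intro z hz z' hz' h1 h1'
    have hm : v * (z + z') ∈ O := by rw [mul_add]; exact add_mem (h2 z hz h1) (h2 z' hz' h1')
    obtain ⟨k, hk⟩ := nr_int hO.1.1 (add_mem hz hz')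
    have hm2 : (k : ℚ) • v ∈ O := by
      have := mul_mem hm (star_mem' hO.1.1 (add_mem hz hz'))
      rwa [mul_assoc, mul_star_eq, hk, mul_smul_comm, mul_one] at this
    by_contra hnd
    have hc : IsCoprime (q : ℤ) k := hq'.irreducible.coprime_iff_not_dvd.mpr (by
      rintro ⟨m, hm⟩
      exact hnd ⟨m, by rw [hk, hm]; push_cast; ring⟩)
    obtain ⟨s, t, hst⟩ := hc
    apply hvO
    have : v = (s : ℚ) • ((q : ℚ) • v) + (t : ℚ) • ((k : ℚ) • v) := by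
      rw [smul_smul, smul_smul, ← add_smul]
      have : (s : ℚ) * q + t * k = 1 := by exact_mod_cast hst
      rw [this, one_smul]
    rw [this]
    exact add_mem (int_smul_mem O s hx) (int_smul_mem O t hm2)
  obtain ⟨y, hy, hny, m, hm⟩ := exists_split h ha hb hO.1
  apply hny
  refine mem_of_dual hO (dual_of_add hO.1.1 hq.out hadd hy ⟨q * m, ?_⟩) ⟨m, ?_⟩
  · rw [hm]; push_cast; ring
  · rw [nr_smul, hm]; field_simp

lemma mem_of_sq (ha : a ≠ 0) (hb : b ≠ 0) {O : Subring ℍ[ℚ,a,b]} (hO : IsMaximalOrder O)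
    {q : ℕ} (hq : q.Prime) {v : ℍ[ℚ,a,b]} (hv : Dual O v) (hx : ((q : ℚ) ^ 2) • v ∈ O) :
    (q : ℚ) • v ∈ O := by
  have hq0 : (q : ℚ) ≠ 0 := by exact_mod_cast hq.ne_zero
  obtain ⟨n, hn⟩ := nr_dvd_of_dual ha hb hO hq 2 hv hx
  refine mem_of_dual hO (by simpa using hv.smul (q : ℤ)) ⟨n, ?_⟩
  rw [nr_smul] at hn ⊢
  push_cast at hn
  apply mul_left_cancel₀ (pow_ne_zero 2 hq0)
  linear_combination hn

lemma ne_zero_of_ram {p : ℕ} (hR : RamifiedExactly p a b) : a ≠ 0 ∧ b ≠ 0 :=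
  ⟨(neg_of_div hR.1).1.ne, (neg_of_div hR.1).2.ne⟩

lemma dual_exponent {p : ℕ} (hp : p.Prime) (hR : RamifiedExactly p a b) {O : Subring ℍ[ℚ,a,b]}
    (hO : IsMaximalOrder O) {w : ℍ[ℚ,a,b]} (hw : Dual O w) : (p : ℚ) • w ∈ O := by
  obtain ⟨ha, hb⟩ := ne_zero_of_ram hR
  obtain ⟨m, hm0, hm⟩ := exists_nat_smul_mem hO.1 w
  induction m using Nat.strong_induction_on generalizing w with
  | _ m ih =>
    by_cases h1 : m = 1
    · subst h1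
      exact nat_smul_mem O p (by simpa using hm)
    · obtain ⟨q, hq, m', rfl⟩ := Nat.exists_prime_and_dvd h1
      have hm' : 0 < m' := Nat.pos_of_mul_pos_left hm0
      have hlt : m' < q * m' := by nlinarith [hq.one_lt]
      by_cases hqp : q = p
      · subst hqp
        have h2 := ih m' hlt (w := (q : ℚ) • w) (by simpa using hw.smul (q : ℤ)) hm' (by
          rw [smul_smul]; push_cast at hm; rwa [mul_comm])
        exact mem_of_sq ha hb hO hq hw (by rwa [smul_smul, ← pow_two] at h2)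
      · have : Fact q.Prime := ⟨hq⟩
        have hnd : ¬ IsDivision ℚ_[q] (a : ℚ_[q]) (b : ℚ_[q]) := fun h => hqp ((hR.2 q).mp h)
        refine ih m' hlt hw hm' (mem_of_unramified ha hb hO hnd
          (by simpa using hw.smul (m' : ℤ)) ?_)
        rw [smul_smul]; push_cast at hm; exact hm

lemma dual_comm3 (ha : a ≠ 0) (hb : b ≠ 0) {O : Subring ℍ[ℚ,a,b]} (hO : IsOrder O)
    {x y z : ℍ[ℚ,a,b]} (hs : Spans O x y z) : Dual O ((1 / tau x y z) • (x * y - y * x)) := by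
  intro u hu
  obtain ⟨n0, n1, n2, n3, e⟩ := hs.2.2.2 _ (star_mem' hO.1 hu)
  have ht := tau_ne_zero ha hb hO hs
  refine ⟨n3, ?_⟩
  have : tr ((x * y - y * x) * u) = tau x y (star u) := by simp [tau]
  rw [smul_mul_assoc, tr_smul, this, e, tau_comb3]
  field_simp

lemma Spans.rot {O : Subring ℍ[ℚ,a,b]} {x y z : ℍ[ℚ,a,b]} (hs : Spans O x y z) :
    Spans O y z x := by
  refine ⟨hs.2.1, hs.2.2.1, hs.1, fun u hu => ?_⟩
  obtain ⟨n0, n1, n2, n3, e⟩ := hs.2.2.2 u hu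
  exact ⟨n0, n2, n3, n1, by rw [e]; simp only [comb]; abel⟩

lemma Spans.swap {O : Subring ℍ[ℚ,a,b]} {x y z : ℍ[ℚ,a,b]} (hs : Spans O x y z) :
    Spans O y x z := by
  refine ⟨hs.2.1, hs.1, hs.2.2.1, fun u hu => ?_⟩
  obtain ⟨n0, n1, n2, n3, e⟩ := hs.2.2.2 u hu
  exact ⟨n0, n2, n1, n3, by rw [e]; simp only [comb]; abel⟩

/-- the discriminant of a maximal order divides `p` -/
lemma tau_dvd {p : ℕ} (hp : p.Prime) (hR : RamifiedExactly p a b) {O : Subring ℍ[ℚ,a,b]}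
    (hO : IsMaximalOrder O) {x y z : ℍ[ℚ,a,b]} (hs : Spans O x y z) :
    ∃ n : ℤ, (p : ℚ) = n * tau x y z := by
  obtain ⟨ha, hb⟩ := ne_zero_of_ram hR
  have hp0 : (p : ℚ) ≠ 0 := by exact_mod_cast hp.ne_zero
  have ht := tau_ne_zero ha hb hO.1 hs
  have r1 : tau y z x = tau x y z := by rw [tau_eq, tau_eq]; ring
  have r2 : tau z x y = tau x y z := by rw [tau_eq, tau_eq]; ring
  have d1 := dual_comm3 ha hb hO.1 hs.rot
  have d2 := dual_comm3 ha hb hO.1 hs.rot.rot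
  rw [r1] at d1
  rw [r2] at d2
  set w1 := (1 / tau x y z) • (y * z - z * y) with hw1
  set w2 := (1 / tau x y z) • (z * x - x * z) with hw2
  have m1 := dual_exponent hp hR hO d1
  have m2 := dual_exponent hp hR hO d2
  obtain ⟨n1, hn1⟩ := nr_dvd_of_dual ha hb hO hp 1 d1 (by simpa using m1)
  obtain ⟨n2, hn2⟩ := nr_dvd_of_dual ha hb hO hp 1 d2 (by simpa using m2)
  rw [pow_one] at hn1 hn2
  have hmem : w1 * ((p : ℚ) • w2) ∈ O := by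
    refine mem_of_dual hO (d1.mul m2) ⟨n1 * n2, ?_⟩
    rw [nr_mul, hn2]
    rw [nr_smul] at hn1
    push_cast at hn1 ⊢
    apply mul_left_cancel₀ hp0
    linear_combination n2 * hn1
  obtain ⟨k0, k1, k2, k3, e⟩ := hs.2.2.2 _ hmem
  have e1 := tau_comb3 x y z k0 k1 k2 k3
  have e2 : tau x y ((y * z - z * y) * (z * x - x * z)) = tau x y z ^ 2 := by
    simp [tau_eq]; ring
  have e3 : tau x y (w1 * ((p : ℚ) • w2)) =
      (1 / tau x y z) * p * (1 / tau x y z) * tau x y ((y * z - z * y) * (z * x - x * z)) := by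
    rw [hw1, hw2]
    generalize 1 / tau x y z = c
    generalize y * z - z * y = s1
    generalize z * x - x * z = s2
    simp [tau_eq]; ring
  rw [← e, e3, e2] at e1
  refine ⟨k3, ?_⟩
  rw [← e1]; field_simp

lemma add_of_ramified {p : ℕ} (hp : p.Prime) (hR : RamifiedExactly p a b) {O : Subring ℍ[ℚ,a,b]}
    (hO : O.toAddSubgroup.FG) :
    ∀ z ∈ O, ∀ z' ∈ O, Dv p (nr z) → Dv p (nr z') → Dv p (nr (z + z')) := by
  rintro z hz z' hz' ⟨m, hm⟩ ⟨m', hm'⟩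
  have : Fact p.Prime := ⟨hp⟩
  obtain ⟨T, hT⟩ := tr_int hO (mul_mem hz (star_mem' hO hz'))
  obtain ⟨k, hk⟩ := dvd_tr_of_ramified ((hR.2 p).mpr rfl) z z' (p * m) (p * m') T
    (by rw [hm]; push_cast; ring) (by rw [hm']; push_cast; ring) hT ⟨m, rfl⟩ ⟨m', rfl⟩
  refine ⟨m + m' + k, ?_⟩
  have e : nr (z + z') = nr z + nr z' + tr (z * star z') := by simp [nr_eq, tr_eq]; ring
  rw [e, hm, hm', hT, hk]; push_cast; ring

lemma comm_dvd {p : ℕ} (hp : p.Prime) (hR : RamifiedExactly p a b) {O : Subring ℍ[ℚ,a,b]}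
    (hO : O.toAddSubgroup.FG) {x y : ℍ[ℚ,a,b]} (hx : x ∈ O) (hy : y ∈ O) :
    Dv p (nr (x * y - y * x)) := by
  have : Fact p.Prime := ⟨hp⟩
  have hp' : Prime (p : ℤ) := Nat.prime_iff_prime_int.mp hp
  have hadd := add_of_ramified hp hR hO
  obtain ⟨A1, hA1⟩ := nr_int hO hx
  obtain ⟨A2, hA2⟩ := nr_int hO hy
  obtain ⟨T1, hT1⟩ := tr_int hO hx
  obtain ⟨T2, hT2⟩ := tr_int hO hy
  obtain ⟨T12, hT12⟩ := tr_int hO (mul_mem hx (star_mem' hO hy))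
  obtain ⟨s, t, u, hne, k, hk⟩ := ternary_zero p 1 A1 A2 T1 T2 T12
  set v := comb x y 0 s t u (0 : ℤ) with hv
  have hvO : v ∈ O := comb_mem hx hy (zero_mem O) _ _ _ _
  have hnv : Dv p (nr v) := by
    refine ⟨k, ?_⟩
    have hk' : (1 * s ^ 2 + A1 * t ^ 2 + A2 * u ^ 2 + T1 * s * t + T2 * s * u + T12 * t * u : ℚ)
        = p * k := by exact_mod_cast hk
    push_cast
    rw [← hk', ← hA1, ← hA2, ← hT1, ← hT2, ← hT12, hv]
    simp [nr_eq, tr_eq, comb]; ring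
  have hc : ∀ w ∈ O, Dv p (nr (v * w - w * v)) := by
    intro w hw
    have h1 := hnv.mul_nr hO hw
    have h2 : Dv p (nr (-(w * v))) := by
      have : nr (-(w * v)) = nr (v * w) := by simp [nr_eq]; ring
      rwa [this]
    rw [sub_eq_add_neg]
    exact hadd _ (mul_mem hvO hw) _ (neg_mem (mul_mem hw hvO)) h1 h2
  obtain ⟨N, hN⟩ := nr_int hO (sub_mem (mul_mem hx hy) (mul_mem hy hx))
  have h1 : (p : ℤ) ∣ t ^ 2 * N := by
    obtain ⟨m, hm⟩ := hc y hy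
    have : nr (v * y - y * v) = t ^ 2 * nr (x * y - y * x) := by
      rw [hv]; simp [nr_eq, comb]; ring
    rw [this, hN] at hm
    exact ⟨m, by exact_mod_cast hm⟩
  have h2 : (p : ℤ) ∣ u ^ 2 * N := by
    obtain ⟨m, hm⟩ := hc x hx
    have : nr (v * x - x * v) = u ^ 2 * nr (x * y - y * x) := by
      rw [hv]; simp [nr_eq, comb]; ring
    rw [this, hN] at hm
    exact ⟨m, by exact_mod_cast hm⟩
  have h3 : (p : ℤ) ∣ N := by
    by_contra hnd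
    have dt : (p : ℤ) ∣ t := hp'.dvd_of_dvd_pow ((hp'.dvd_or_dvd h1).resolve_right hnd)
    have du : (p : ℤ) ∣ u := hp'.dvd_of_dvd_pow ((hp'.dvd_or_dvd h2).resolve_right hnd)
    have ds : (p : ℤ) ∣ s := by
      obtain ⟨t', rfl⟩ := dt
      obtain ⟨u', rfl⟩ := du
      refine hp'.dvd_of_dvd_pow (n := 2) ⟨k - (A1 * p * t' ^ 2 + A2 * p * u' ^ 2 + T1 * s * t'
        + T2 * s * u' + T12 * t' * p * u'), ?_⟩
      linear_combination hk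
    exact hne ⟨ds, dt, du⟩
  obtain ⟨m, hm⟩ := h3
  exact ⟨m, by rw [hN, hm]; push_cast; ring⟩

lemma tau_dvd' {p : ℕ} (hp : p.Prime) (hR : RamifiedExactly p a b) {O : Subring ℍ[ℚ,a,b]}
    (hO : O.toAddSubgroup.FG) {x y z : ℍ[ℚ,a,b]} (hx : x ∈ O) (hy : y ∈ O) (hz : z ∈ O) :
    Dv p (tau x y z) :=
  tr_dvd_of_add hO hp (add_of_ramified hp hR hO)
    (mul_mem (sub_mem (mul_mem hx hy) (mul_mem hy hx)) (star_mem' hO hz))
    ((comm_dvd hp hR hO hx hy).mul_nr hO (star_mem' hO hz))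

lemma tau_sq {p : ℕ} (hp : p.Prime) (hR : RamifiedExactly p a b) {O : Subring ℍ[ℚ,a,b]}
    (hO : IsMaximalOrder O) {x y z : ℍ[ℚ,a,b]} (hs : Spans O x y z) :
    tau x y z = p ∨ tau x y z = -p := by
  obtain ⟨n, hn⟩ := tau_dvd hp hR hO hs
  obtain ⟨m, hm⟩ := tau_dvd' hp hR hO.1.1 hs.1 hs.2.1 hs.2.2.1
  have hp0 : (p : ℚ) ≠ 0 := by exact_mod_cast hp.ne_zero
  have e : (n : ℚ) * m = 1 := by
    apply mul_left_cancel₀ hp0
    rw [hm] at hn; push_cast at hn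
    linear_combination -hn
  have e' : n * m = 1 := by exact_mod_cast e
  rcases Int.eq_one_or_neg_one_of_mul_eq_one (by rw [mul_comm]; exact e') with h | h
  · left; rw [hm, h]; simp
  · right; rw [hm, h]; simp

end Pool.Agent.H752Z.Gross
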