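import Mathlib

/-! Definitions for maximal orders of definite rational quaternion algebras and their Gross lattices. -/

namespace Pool.Agent.H752Z.Gross

open Quaternion

/-- Reduced trace `x + x̄` on the quaternion algebra `(a,b)` over `ℚ`. -/
def tr {a b : ℚ} (x : ℍ[ℚ,a,b]) : ℚ := (x + star x).re

/-- Reduced norm `x x̄` on the quaternion algebra `(a,b)` over `ℚ`. -/
def nr {a b : ℚ} (x : ℍ[ℚ,a,b]) : ℚ := (x * star x).re

/-- The quaternion algebra `(a,b)` over the field `K` is a division algebra. -/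
def IsDivision (K : Type) [Field K] (a b : K) : Prop :=
  ∀ x : ℍ[K,a,b], x ≠ 0 → IsUnit x

/-- The rational quaternion algebra `(a,b)` is ramified exactly at `∞` and at `p`: it stays a
division algebra over `ℝ`, and over `ℚ_q` (`q` prime) exactly when `q = p`. -/
def RamifiedExactly (p : ℕ) (a b : ℚ) : Prop :=
  IsDivision ℝ (a : ℝ) (b : ℝ) ∧
    ∀ (q : ℕ) [Fact q.Prime], IsDivision ℚ_[q] (a : ℚ_[q]) (b : ℚ_[q]) ↔ q = p

/-- An order: a subring that is a full lattice (finitely generated additive group spanning the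
algebra over `ℚ`). -/
def IsOrder {a b : ℚ} (O : Subring ℍ[ℚ,a,b]) : Prop :=
  O.toAddSubgroup.FG ∧ Submodule.span ℚ (O : Set ℍ[ℚ,a,b]) = ⊤

/-- A maximal order: an order not properly contained in another order. -/
def IsMaximalOrder {a b : ℚ} (O : Subring ℍ[ℚ,a,b]) : Prop :=
  IsOrder O ∧ ∀ O' : Subring ℍ[ℚ,a,b], IsOrder O' → O ≤ O' → O' = O

/-- `O' = c⁻¹ O c` for some invertible `c`. -/
def Conjugate {a b : ℚ} (O O' : Subring ℍ[ℚ,a,b]) : Prop :=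
  ∃ c : (ℍ[ℚ,a,b])ˣ, (O' : Set ℍ[ℚ,a,b]) =
    (fun x => ((c⁻¹ : (ℍ[ℚ,a,b])ˣ) : ℍ[ℚ,a,b]) * x * (c : ℍ[ℚ,a,b])) '' (O : Set ℍ[ℚ,a,b])

/-- The Gross lattice `{2x - Tr x : x ∈ O}`. -/
def grossLattice {a b : ℚ} (O : Subring ℍ[ℚ,a,b]) : Set ℍ[ℚ,a,b] :=
  {h | ∃ x ∈ O, h = 2 * x - ((tr x : ℚ) : ℍ[ℚ,a,b])}

/-- A primitive vector of the Gross lattice: it is `n • h'` with `h'` in the lattice only for
`n = ±1` (equivalently, its coordinates in a `ℤ`-basis have gcd `1`). -/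
def IsPrimitive {a b : ℚ} (O : Subring ℍ[ℚ,a,b]) (h : ℍ[ℚ,a,b]) : Prop :=
  h ∈ grossLattice O ∧ ∀ (n : ℤ) (h' : ℍ[ℚ,a,b]), h' ∈ grossLattice O → h = n • h' → IsUnit n

/-- The number of primitive representations of `d` by the reduced norm on the Gross lattice. -/
noncomputable def primCount {a b : ℚ} (O : Subring ℍ[ℚ,a,b]) (d : ℕ) : ℕ∞ :=
  Set.encard {h : ℍ[ℚ,a,b] | IsPrimitive O h ∧ nr h = d}

/-- The integers `n₀` for which there are positive `n₁, n₂ < n₀` with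
`a_{O'}(n₁) ≥ a_O(n₁)` and `a_{O'}(n₂) < a_O(n₂)`; `n₀(O,O')` is the least element. -/
def signChangeBounds {a b : ℚ} (O O' : Subring ℍ[ℚ,a,b]) : Set ℕ :=
  {n₀ | ∃ n₁ n₂ : ℕ, 0 < n₁ ∧ n₁ < n₀ ∧ 0 < n₂ ∧ n₂ < n₀ ∧
    primCount O n₁ ≤ primCount O' n₁ ∧ primCount O' n₂ < primCount O n₂}

end Pool.Agent.H752Z.Gross
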