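import Pool.Agent.H752Z.Gross.D

namespace Pool.Agent.H752Z.Gross

open scoped Quaternion
open QuaternionAlgebra

lemma exists_round (E Δ : ℤ) (h : 0 < Δ) : ∃ n : ℤ, -Δ ≤ 2 * (E - n * Δ) ∧ 2 * (E - n * Δ) ≤ Δ := by
  have h1 := Int.emod_nonneg (2 * E + Δ) (show 2 * Δ ≠ 0 by omega)
  have h2 := Int.emod_lt_of_pos (2 * E + Δ) (show 0 < 2 * Δ by omega)
  have h3 := Int.mul_ediv_add_emod (2 * E + Δ) (2 * Δ)
  refine ⟨(2 * E + Δ) / (2 * Δ), ?_, ?_⟩ <;> nlinarith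

lemma height_bound (D1 D2 D3 t12 t13 t23 : ℤ) (h1 : 0 < D1) (h12 : D1 ≤ D2) (h23 : D2 ≤ D3)
    (hΔ : 0 < D1 * D2 - t12 ^ 2)
    (h : ∀ n1 n2 : ℤ, D3 ≤ D3 + n1 ^ 2 * D1 + n2 ^ 2 * D2 - 2 * n1 * t13 - 2 * n2 * t23
      + 2 * n1 * n2 * t12) :
    D3 * (D1 * D2 - t12 ^ 2) ≤
      2 * (D1 * D2 * D3 + 2 * t12 * t13 * t23 - D1 * t23 ^ 2 - D2 * t13 ^ 2 - D3 * t12 ^ 2) := by
  set Δ := D1 * D2 - t12 ^ 2 with hΔd
  set dt := D1 * D2 * D3 + 2 * t12 * t13 * t23 - D1 * t23 ^ 2 - D2 * t13 ^ 2 - D3 * t12 ^ 2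
    with hdt
  obtain ⟨n2, a1, a2⟩ := exists_round (D1 * t23 - t12 * t13) Δ hΔ
  obtain ⟨n1, b1, b2⟩ := exists_round (t13 - n2 * t12) D1 h1
  set w := D1 * t23 - t12 * t13 - n2 * Δ with hw
  set u := t13 - n2 * t12 - n1 * D1 with hu
  have hV := h n1 n2
  set V := D3 + n1 ^ 2 * D1 + n2 ^ 2 * D2 - 2 * n1 * t13 - 2 * n2 * t23 + 2 * n1 * n2 * t12
    with hVd
  have id : D1 * Δ * V = D1 * dt + Δ * u ^ 2 + w ^ 2 := by
    rw [hVd, hdt, hu, hw, hΔd]; ring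
  have c1 : 4 * u ^ 2 ≤ D1 ^ 2 := by nlinarith
  have c2 : 4 * w ^ 2 ≤ Δ ^ 2 := by nlinarith
  have c3 : Δ ≤ D1 * D2 := by nlinarith [sq_nonneg t12]
  have c4 : Δ ^ 2 ≤ Δ * (D1 * D2) := by nlinarith
  have c5 : D1 * Δ * D3 ≤ D1 * Δ * V := by
    have : 0 < D1 * Δ := by positivity
    nlinarith
  have c6 : Δ * (4 * u ^ 2) ≤ Δ * D1 ^ 2 := by nlinarith
  have c7 : D1 * (4 * Δ * D3) ≤ D1 * (4 * dt + Δ * D1 + Δ * D2) := by nlinarith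
  have c8 : 4 * Δ * D3 ≤ 4 * dt + Δ * D1 + Δ * D2 := le_of_mul_le_mul_left c7 h1
  nlinarith

lemma pm_of_dvd {p : ℕ} (hp : p.Prime) (t t' : ℤ) (h : 4 * (p : ℤ) ∣ t' ^ 2 - t ^ 2)
    (hb : |t| + |t'| < 2 * p) : t' = t ∨ t' = -t := by
  have hp' : Prime (p : ℤ) := Nat.prime_iff_prime_int.mp hp
  obtain ⟨k, hk⟩ := h
  obtain ⟨u, hu⟩ : ∃ u, t' - t = 2 * u := by
    rcases Int.even_or_odd' (t' - t) with ⟨u, hu | hu⟩
    · exact ⟨u, hu⟩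
    · exfalso
      have e : t' = t + 2 * u + 1 := by omega
      rw [e] at hk
      have : 2 * (2 * u * t + t + 2 * u ^ 2 + 2 * u - 2 * p * k) + 1 = 0 := by linear_combination hk
      omega
  have e : t' = t + 2 * u := by omega
  have h2 : (p : ℤ) ∣ u * (t + u) := ⟨k, by rw [e] at hk; linarith⟩
  have a1 := le_abs_self t
  have a2 := neg_abs_le t
  have a3 := le_abs_self t'
  have a4 := neg_abs_le t'
  rcases hp'.dvd_or_dvd h2 with h3 | h3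
  · have := Int.eq_zero_of_abs_lt_dvd h3 (by rw [abs_lt]; constructor <;> omega)
    left; omega
  · have := Int.eq_zero_of_abs_lt_dvd h3 (by rw [abs_lt]; constructor <;> omega)
    right; omega

variable {a b : ℚ}

lemma g_det2 (x y : ℍ[ℚ,a,b]) : g x x * g y y - g x y ^ 2 = 4 * nr (x * y - y * x) := by
  simp [g_eq, nr_eq]; ring

lemma g_det3 (x y z : ℍ[ℚ,a,b]) : g x x * g y y * g z z + 2 * g x y * g x z * g y z
    - g x x * g y z ^ 2 - g y y * g x z ^ 2 - g z z * g x y ^ 2 = 4 * tau x y z ^ 2 := by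
  simp only [g_eq, tau_eq]; ring

lemma nr_comm_eq (x y : ℍ[ℚ,a,b]) : nr (x * y - y * x) = tau x y (x * y) := by
  simp [tau_eq, nr_eq]; ring

lemma g_self (x : ℍ[ℚ,a,b]) : g x x = 4 * nr x - tr x ^ 2 := by
  simp [g_eq, nr_eq, tr_eq]; ring

lemma nr_nonneg (ha : a < 0) (hb : b < 0) (x : ℍ[ℚ,a,b]) : 0 ≤ nr x := by
  rw [nr_eq]
  have := mul_pos_of_neg_of_neg ha hb
  nlinarith [sq_nonneg x.re, sq_nonneg x.imI, sq_nonneg x.imJ, sq_nonneg x.imK]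

lemma eq_zero_of_nr (ha : a < 0) (hb : b < 0) {x : ℍ[ℚ,a,b]} (h : nr x = 0) : x = 0 := by
  rw [nr_eq] at h
  have hab := mul_pos_of_neg_of_neg ha hb
  have h0 := sq_nonneg x.re
  have h1 : 0 ≤ -a * x.imI ^ 2 := mul_nonneg (by linarith) (sq_nonneg _)
  have h2 : 0 ≤ -b * x.imJ ^ 2 := mul_nonneg (by linarith) (sq_nonneg _)
  have h3 : 0 ≤ a * b * x.imK ^ 2 := mul_nonneg hab.le (sq_nonneg _)
  have e0 : x.re ^ 2 = 0 := by linarith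
  have e1 : -a * x.imI ^ 2 = 0 := by linarith
  have e2 : -b * x.imJ ^ 2 = 0 := by linarith
  have e3 : a * b * x.imK ^ 2 = 0 := by linarith
  ext
  · simpa using e0
  · simpa [ha.ne] using e1
  · simpa [hb.ne] using e2
  · simpa [ha.ne, hb.ne] using e3

lemma g_nonneg (ha : a < 0) (hb : b < 0) (x : ℍ[ℚ,a,b]) : 0 ≤ g x x := by
  rw [g_eq]
  have := mul_pos_of_neg_of_neg ha hb
  nlinarith [sq_nonneg x.imI, sq_nonneg x.imJ, sq_nonneg x.imK]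

lemma g_int {O : Subring ℍ[ℚ,a,b]} (hO : O.toAddSubgroup.FG) {x y : ℍ[ℚ,a,b]} (hx : x ∈ O)
    (hy : y ∈ O) : ∃ n : ℤ, g x y = n := by
  obtain ⟨A, hA⟩ := tr_int hO (mul_mem hx (star_mem' hO hy))
  obtain ⟨B, hB⟩ := tr_int hO hx
  obtain ⟨C, hC⟩ := tr_int hO hy
  exact ⟨2 * A - B * C, by rw [g, hA, hB, hC]; push_cast; ring⟩

lemma g_mod {O : Subring ℍ[ℚ,a,b]} (hO : O.toAddSubgroup.FG) {x : ℍ[ℚ,a,b]} (hx : x ∈ O)
    {D : ℤ} (h : g x x = D) : D % 4 = 0 ∨ D % 4 = 3 := by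
  obtain ⟨A, hA⟩ := nr_int hO hx
  obtain ⟨B, hB⟩ := tr_int hO hx
  rw [g_self, hA, hB] at h
  have e : 4 * A - B ^ 2 = D := by exact_mod_cast h
  rcases Int.even_or_odd' B with ⟨u, hu | hu⟩
  · left
    have : D = 4 * (A - u ^ 2) := by rw [← e, hu]; ring
    omega
  · right
    have : D = 4 * (A - u ^ 2 - u - 1) + 3 := by rw [← e, hu]; ring
    omega

lemma g_det2_dvd {p : ℕ} (hp : p.Prime) (hR : RamifiedExactly p a b) {O : Subring ℍ[ℚ,a,b]}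
    (hO : O.toAddSubgroup.FG) {x y : ℍ[ℚ,a,b]} (hx : x ∈ O) (hy : y ∈ O) {D1 D2 t : ℤ}
    (h1 : g x x = D1) (h2 : g y y = D2) (h3 : g x y = t) :
    ∃ m : ℤ, 0 ≤ m ∧ D1 * D2 - t ^ 2 = 4 * p * m ∧ nr (x * y - y * x) = p * m := by
  obtain ⟨m, hm⟩ := comm_dvd hp hR hO hx hy
  have e := g_det2 x y
  rw [h1, h2, h3, hm] at e
  have h0 := nr_nonneg (neg_of_div hR.1).1 (neg_of_div hR.1).2 (x * y - y * x)
  rw [hm] at h0
  have hp0 : (0 : ℚ) < p := by exact_mod_cast hp.pos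
  push_cast at h0 hm
  refine ⟨m, ?_, ?_, hm⟩
  · have : (0 : ℚ) ≤ m := by nlinarith
    exact_mod_cast this
  · have : ((D1 * D2 - t ^ 2 : ℤ) : ℚ) = ((4 * p * m : ℤ) : ℚ) := by push_cast; push_cast at e; linarith
    exact_mod_cast this

lemma Spans.shiftY {O : Subring ℍ[ℚ,a,b]} {x y z : ℍ[ℚ,a,b]} (hs : Spans O x y z) (n : ℤ) :
    Spans O x (y - (n : ℚ) • x) z := by
  refine ⟨hs.1, sub_mem hs.2.1 (int_smul_mem O n hs.1), hs.2.2.1, fun u hu => ?_⟩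
  obtain ⟨n0, n1, n2, n3, e⟩ := hs.2.2.2 u hu
  refine ⟨n0, n1 + n2 * n, n2, n3, ?_⟩
  rw [e]; simp only [comb]; push_cast; module

lemma Spans.shiftZ {O : Subring ℍ[ℚ,a,b]} {x y z : ℍ[ℚ,a,b]} (hs : Spans O x y z) (n m : ℤ) :
    Spans O x y (z - (n : ℚ) • x - (m : ℚ) • y) := by
  refine ⟨hs.1, hs.2.1, sub_mem (sub_mem hs.2.2.1 (int_smul_mem O n hs.1))
    (int_smul_mem O m hs.2.1), fun u hu => ?_⟩
  obtain ⟨n0, n1, n2, n3, e⟩ := hs.2.2.2 u hu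
  refine ⟨n0, n1 + n3 * n, n2 + n3 * m, n3, ?_⟩
  rw [e]; simp only [comb]; push_cast; module

lemma exists_min (ha : a < 0) (hb : b < 0) {O : Subring ℍ[ℚ,a,b]} (hO : O.toAddSubgroup.FG) :
    ∃ x y z, Spans O x y z ∧ g x x ≤ g y y ∧ g y y ≤ g z z ∧
      ∀ x' y' z', Spans O x' y' z' → g x x + g y y + g z z ≤ g x' x' + g y' y' + g z' z' := by
  classical
  have hW : ∀ x y z, Spans O x y z → ∃ n : ℕ, g x x + g y y + g z z = n := by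
    intro x y z hs
    obtain ⟨A, hA⟩ := g_int hO hs.1 hs.1
    obtain ⟨B, hB⟩ := g_int hO hs.2.1 hs.2.1
    obtain ⟨C, hC⟩ := g_int hO hs.2.2.1 hs.2.2.1
    have h0 : (0 : ℚ) ≤ ((A + B + C : ℤ) : ℚ) := by
      push_cast; rw [← hA, ← hB, ← hC]
      linarith [g_nonneg ha hb x, g_nonneg ha hb y, g_nonneg ha hb z]
    have h1 : 0 ≤ A + B + C := by exact_mod_cast h0
    obtain ⟨n, hn⟩ := Int.eq_ofNat_of_zero_le h1
    exact ⟨n, by rw [hA, hB, hC]; exact_mod_cast hn⟩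
  have hex : ∃ n : ℕ, ∃ x y z, Spans O x y z ∧ g x x + g y y + g z z = n := by
    obtain ⟨x, y, z, hs⟩ := exists_spans hO
    obtain ⟨n, hn⟩ := hW x y z hs
    exact ⟨n, x, y, z, hs, hn⟩
  obtain ⟨x, y, z, hs, hn⟩ := Nat.find_spec hex
  have hmin : ∀ x' y' z', Spans O x' y' z' →
      g x x + g y y + g z z ≤ g x' x' + g y' y' + g z' z' := by
    intro x' y' z' hs'
    obtain ⟨n, hn'⟩ := hW x' y' z' hs'
    rw [hn, hn']
    exact_mod_cast Nat.find_min' hex ⟨x', y', z', hs', hn'⟩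
  rcases le_total (g x x) (g y y) with h1 | h1 <;> rcases le_total (g y y) (g z z) with h2 | h2 <;>
    rcases le_total (g x x) (g z z) with h3 | h3
  · exact ⟨x, y, z, hs, h1, h2, hmin⟩
  · exact ⟨x, y, z, hs, h1, h2, hmin⟩
  · exact ⟨x, z, y, hs.rot.rot.swap, h3, h2, fun x' y' z' h => by linarith [hmin x' y' z' h]⟩
  · exact ⟨z, x, y, hs.rot.rot, h3, h1, fun x' y' z' h => by linarith [hmin x' y' z' h]⟩
  · exact ⟨y, x, z, hs.swap, h1, h3, fun x' y' z' h => by linarith [hmin x' y' z' h]⟩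
  · exact ⟨y, z, x, hs.rot, h2, h3, fun x' y' z' h => by linarith [hmin x' y' z' h]⟩
  · exact ⟨z, y, x, hs.rot.swap, h2, h1, fun x' y' z' h => by linarith [hmin x' y' z' h]⟩
  · exact ⟨z, y, x, hs.rot.swap, h2, h1, fun x' y' z' h => by linarith [hmin x' y' z' h]⟩

lemma reduced_data {p : ℕ} (hp : p.Prime) (hR : RamifiedExactly p a b) {O : Subring ℍ[ℚ,a,b]}
    (hO : IsMaximalOrder O) : ∃ x y z, Spans O x y z ∧ ∃ D1 D2 D3 t12 t13 t23 m : ℤ,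
      g x x = D1 ∧ g y y = D2 ∧ g z z = D3 ∧ g x y = t12 ∧ g x z = t13 ∧ g y z = t23 ∧
      3 ≤ D1 ∧ D1 ≤ D2 ∧ D2 ≤ D3 ∧ (-D1 ≤ 2 * t12 ∧ 2 * t12 ≤ D1) ∧ (-D1 ≤ 2 * t13 ∧ 2 * t13 ≤ D1) ∧
      (-D2 ≤ 2 * t23 ∧ 2 * t23 ≤ D2) ∧ D1 * D2 - t12 ^ 2 = 4 * p * m ∧ 1 ≤ m ∧ D3 * m ≤ 2 * p ∧
      nr (x * y - y * x) = p * m ∧
      D1 * D2 * D3 + 2 * t12 * t13 * t23 - D1 * t23 ^ 2 - D2 * t13 ^ 2 - D3 * t12 ^ 2
        = 4 * p ^ 2 := by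
  obtain ⟨ha, hb⟩ := neg_of_div hR.1
  have hfg := hO.1.1
  obtain ⟨x, y, z, hs, h12, h23, hmin⟩ := exists_min ha hb hfg
  obtain ⟨D1, hD1⟩ := g_int hfg hs.1 hs.1
  obtain ⟨D2, hD2⟩ := g_int hfg hs.2.1 hs.2.1
  obtain ⟨D3, hD3⟩ := g_int hfg hs.2.2.1 hs.2.2.1
  obtain ⟨t12, ht12⟩ := g_int hfg hs.1 hs.2.1
  obtain ⟨t13, ht13⟩ := g_int hfg hs.1 hs.2.2.1
  obtain ⟨t23, ht23⟩ := g_int hfg hs.2.1 hs.2.2.1
  obtain ⟨m, hm0, hm, hm'⟩ := g_det2_dvd hp hR hfg hs.1 hs.2.1 hD1 hD2 ht12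
  have hY : ∀ n : ℤ, D2 ≤ D2 + n ^ 2 * D1 - 2 * n * t12 := by
    intro n
    have h1 := hmin _ _ _ (hs.shiftY n)
    have h2 : g (y - (n : ℚ) • x) (y - (n : ℚ) • x) = g y y + n ^ 2 * g x x - 2 * n * g x y := by
      simp [g_eq]; ring
    rw [h2, hD1, hD2, hD3, ht12] at h1
    have : (D2 : ℚ) ≤ D2 + n ^ 2 * D1 - 2 * n * t12 := by linarith
    exact_mod_cast this
  have hZ : ∀ n1 n2 : ℤ, D3 ≤ D3 + n1 ^ 2 * D1 + n2 ^ 2 * D2 - 2 * n1 * t13 - 2 * n2 * t23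
      + 2 * n1 * n2 * t12 := by
    intro n1 n2
    have h1 := hmin _ _ _ (hs.shiftZ n1 n2)
    have h2 : g (z - (n1 : ℚ) • x - (n2 : ℚ) • y) (z - (n1 : ℚ) • x - (n2 : ℚ) • y) =
        g z z + n1 ^ 2 * g x x + n2 ^ 2 * g y y - 2 * n1 * g x z - 2 * n2 * g y z
          + 2 * n1 * n2 * g x y := by
      simp [g_eq]; ring
    rw [h2, hD1, hD2, hD3, ht12, ht13, ht23] at h1
    have : (D3 : ℚ) ≤ D3 + n1 ^ 2 * D1 + n2 ^ 2 * D2 - 2 * n1 * t13 - 2 * n2 * t23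
      + 2 * n1 * n2 * t12 := by linarith
    exact_mod_cast this
  have hm1 : 1 ≤ m := by
    by_contra hn
    have : m = 0 := by omega
    rw [this] at hm'
    have h0 := eq_zero_of_nr ha hb (by simpa using hm' : nr (x * y - y * x) = 0)
    apply tau_ne_zero ha.ne hb.ne hO.1 hs
    simp [tau, h0, tr_eq]
  have hp0 : (0 : ℤ) < p := by exact_mod_cast hp.pos
  have hD12 : D1 ≤ D2 := by rw [hD1, hD2] at h12; exact_mod_cast h12
  have hD23 : D2 ≤ D3 := by rw [hD2, hD3] at h23; exact_mod_cast h23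
  have hD10 : 0 ≤ D1 := by have := g_nonneg ha hb x; rw [hD1] at this; exact_mod_cast this
  have hΔ : 0 < D1 * D2 - t12 ^ 2 := by rw [hm]; positivity
  have hD1p : 0 < D1 := by
    rcases hD10.lt_or_eq with h | h
    · exact h
    · rw [← h] at hΔ; nlinarith [sq_nonneg t12]
  have hD13 : 3 ≤ D1 := by have := g_mod hfg hs.1 hD1; omega
  have hdet : D1 * D2 * D3 + 2 * t12 * t13 * t23 - D1 * t23 ^ 2 - D2 * t13 ^ 2 - D3 * t12 ^ 2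
      = 4 * p ^ 2 := by
    have e := g_det3 x y z
    rw [hD1, hD2, hD3, ht12, ht13, ht23] at e
    have e2 : tau x y z ^ 2 = p ^ 2 := by
      rcases tau_sq hp hR hO hs with h | h <;> rw [h] <;> ring
    rw [e2] at e
    exact_mod_cast e
  have hh := height_bound D1 D2 D3 t12 t13 t23 hD1p hD12 hD23 hΔ hZ
  rw [hdet, hm] at hh
  have hD3m : D3 * m ≤ 2 * p := by
    have : (4 * p) * (D3 * m) ≤ (4 * p) * (2 * p) := by nlinarith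
    exact le_of_mul_le_mul_left this (by positivity)
  refine ⟨x, y, z, hs, D1, D2, D3, t12, t13, t23, m, hD1, hD2, hD3, ht12, ht13, ht23, hD13, hD12,
    hD23, ⟨?_, ?_⟩, ⟨?_, ?_⟩, ⟨?_, ?_⟩, hm, hm1, hD3m, hm', hdet⟩
  · have := hY (-1); linarith
  · have := hY 1; linarith
  · have := hZ (-1) 0; linarith
  · have := hZ 1 0; linarith
  · have := hZ 0 (-1); linarith
  · have := hZ 0 1; linarith

end Pool.Agent.H752Z.Gross
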