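import Pool.Agent.H752Z.Gross.E

set_option linter.unusedSimpArgs false

namespace Pool.Agent.H752Z.Gross

open scoped Quaternion
open QuaternionAlgebra

lemma exists_intertwiner {R : Type} [Ring R] [Algebra ℚ R] [Nontrivial R] (e1 e2 f1 f2 : R)
    (A B : ℚ) (hA : A ≠ 0) (hB : B ≠ 0) (he1 : e1 * e1 = (-A) • (1 : R))
    (he2 : e2 * e2 = (-B) • (1 : R)) (he : e2 * e1 = -(e1 * e2))
    (hf1 : f1 * f1 = (-A) • (1 : R)) (hf2 : f2 * f2 = (-B) • (1 : R))
    (hf : f2 * f1 = -(f1 * f2)) : ∃ c : R, c ≠ 0 ∧ c * e1 = f1 * c ∧ c * e2 = f2 * c := by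
  have he1' : ∀ w, e1 * (e1 * w) = (-A) • w := fun w => by
    rw [← mul_assoc, he1, smul_mul_assoc, one_mul]
  have he2' : ∀ w, e2 * (e2 * w) = (-B) • w := fun w => by
    rw [← mul_assoc, he2, smul_mul_assoc, one_mul]
  have he' : ∀ w, e2 * (e1 * w) = -(e1 * (e2 * w)) := fun w => by
    rw [← mul_assoc, he, neg_mul, mul_assoc]
  have hf1' : ∀ w, f1 * (f1 * w) = (-A) • w := fun w => by
    rw [← mul_assoc, hf1, smul_mul_assoc, one_mul]
  have hf2' : ∀ w, f2 * (f2 * w) = (-B) • w := fun w => by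
    rw [← mul_assoc, hf2, smul_mul_assoc, one_mul]
  have hf' : ∀ w, f2 * (f1 * w) = -(f1 * (f2 * w)) := fun w => by
    rw [← mul_assoc, hf, neg_mul, mul_assoc]
  let c : R → R := fun u => (A * B) • u - B • (f1 * (u * e1)) - A • (f2 * (u * e2))
    + f1 * (f2 * (u * (e2 * e1)))
  have k1 : ∀ u, c u * e1 = f1 * c u := by
    intro u
    simp only [c, mul_add, add_mul, mul_sub, sub_mul, mul_assoc, smul_mul_assoc, mul_smul_comm,
      he1, he2, he, he1', he2', he', hf1', hf2', hf', mul_one, mul_neg, neg_mul, smul_neg]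
    module
  have k2 : ∀ u, c u * e2 = f2 * c u := by
    intro u
    simp only [c, mul_add, add_mul, mul_sub, sub_mul, mul_assoc, smul_mul_assoc, mul_smul_comm,
      he1, he2, he, he1', he2', he', hf1', hf2', hf', mul_one, mul_neg, neg_mul, smul_neg]
    module
  have k3 : (A * B) • c 1 - B • (c e1 * e1) - A • (c e2 * e2) + c (e1 * e2) * (e2 * e1)
      = (4 * (A * B) ^ 2) • (1 : R) := by
    simp only [c, mul_add, add_mul, mul_sub, sub_mul, mul_assoc, smul_mul_assoc, mul_smul_comm,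
      he1, he2, he, he1', he2', he', hf1', hf2', hf', mul_one, one_mul, mul_neg, neg_mul, smul_neg]
    module
  by_contra hn
  push Not at hn
  have z : ∀ u, c u = 0 := fun u => by
    by_contra h0
    exact hn _ h0 (k1 u) (k2 u)
  rw [z, z, z, z] at k3
  have : (4 * (A * B) ^ 2) • (1 : R) = 0 := by rw [← k3]; simp
  have h4 : (4 * (A * B) ^ 2 : ℚ) ≠ 0 := by positivity
  have h5 : (1 : R) = 0 := by
    rw [← one_smul ℚ (1 : R), ← inv_mul_cancel₀ h4, mul_smul, this, smul_zero]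
  exact one_ne_zero h5

variable {a b : ℚ}

/-- conjugation by a unit -/
def cj (c : (ℍ[ℚ,a,b])ˣ) (u : ℍ[ℚ,a,b]) : ℍ[ℚ,a,b] := (c : ℍ[ℚ,a,b]) * u * (c⁻¹ : (ℍ[ℚ,a,b])ˣ)

lemma cj_mul (c : (ℍ[ℚ,a,b])ˣ) (u v : ℍ[ℚ,a,b]) : cj c (u * v) = cj c u * cj c v := by
  simp [cj, mul_assoc]

lemma cj_add (c : (ℍ[ℚ,a,b])ˣ) (u v : ℍ[ℚ,a,b]) : cj c (u + v) = cj c u + cj c v := by
  simp [cj, mul_add, add_mul]

lemma cj_sub (c : (ℍ[ℚ,a,b])ˣ) (u v : ℍ[ℚ,a,b]) : cj c (u - v) = cj c u - cj c v := by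
  simp [cj, mul_sub, sub_mul]

lemma cj_smul (c : (ℍ[ℚ,a,b])ˣ) (r : ℚ) (u : ℍ[ℚ,a,b]) : cj c (r • u) = r • cj c u := by
  simp [cj]

lemma cj_one (c : (ℍ[ℚ,a,b])ˣ) : cj c 1 = 1 := by simp [cj]

lemma tr_cj (c : (ℍ[ℚ,a,b])ˣ) (u : ℍ[ℚ,a,b]) : tr (cj c u) = tr u := by
  rw [cj, tr_comm, ← mul_assoc]; simp

lemma star_cj (c : (ℍ[ℚ,a,b])ˣ) (u : ℍ[ℚ,a,b]) : star (cj c u) = cj c (star u) := by
  rw [star_eq, star_eq u, cj_sub, cj_smul, cj_one, tr_cj]

lemma g_cj (c : (ℍ[ℚ,a,b])ˣ) (u v : ℍ[ℚ,a,b]) : g (cj c u) (cj c v) = g u v := by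
  rw [g, star_cj, ← cj_mul, tr_cj, tr_cj, tr_cj, g]

lemma tau_cj (c : (ℍ[ℚ,a,b])ˣ) (u v w : ℍ[ℚ,a,b]) :
    tau (cj c u) (cj c v) (cj c w) = tau u v w := by
  rw [tau, star_cj, ← cj_mul, ← cj_mul, ← cj_sub, ← cj_mul, tr_cj, tau]

lemma nr_cj (c : (ℍ[ℚ,a,b])ˣ) (u : ℍ[ℚ,a,b]) : nr (cj c u) = nr u := by
  have h1 := g_self (cj c u)
  rw [g_cj, tr_cj, g_self] at h1
  linarith

lemma cj_comb (c : (ℍ[ℚ,a,b])ˣ) (x y z : ℍ[ℚ,a,b]) (r0 r1 r2 r3 : ℚ) :
    cj c (comb x y z r0 r1 r2 r3) = comb (cj c x) (cj c y) (cj c z) r0 r1 r2 r3 := by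
  simp only [comb, cj_add, cj_smul, cj_one]

/-- same imaginary part -/
def SameIm (u v : ℍ[ℚ,a,b]) : Prop := u.imI = v.imI ∧ u.imJ = v.imJ ∧ u.imK = v.imK

lemma exists_cj (ha : a < 0) (hb : b < 0) {x y x' y' : ℍ[ℚ,a,b]} (h1 : g x' x' = g x x)
    (h2 : g y' y' = g y y) (h3 : g x' y' = g x y) (hΔ : g x x * g y y - g x y ^ 2 ≠ 0) :
    ∃ c : (ℍ[ℚ,a,b])ˣ, SameIm (cj c x) x' ∧ SameIm (cj c y) y' := by
  have hD : g x x ≠ 0 := by
    intro h0
    have e := g_det2 x y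
    have := nr_nonneg ha hb (x * y - y * x)
    rw [h0] at e hΔ
    apply hΔ
    nlinarith [sq_nonneg (g x y)]
  have sq1 : ∀ u : ℍ[ℚ,a,b], (u - star u) * (u - star u) = (-(g u u)) • (1 : ℍ[ℚ,a,b]) := by
    intro u; ext <;> simp [g_eq] <;> ring
  have sq2 : ∀ u v : ℍ[ℚ,a,b], (g u u • (v - star v) - g u v • (u - star u)) *
      (g u u • (v - star v) - g u v • (u - star u)) =
      (-(g u u * (g u u * g v v - g u v ^ 2))) • (1 : ℍ[ℚ,a,b]) := by
    intro u v; ext <;> simp [g_eq] <;> ring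
  have ac : ∀ u v : ℍ[ℚ,a,b], (g u u • (v - star v) - g u v • (u - star u)) * (u - star u) =
      -((u - star u) * (g u u • (v - star v) - g u v • (u - star u))) := by
    intro u v; ext <;> simp [g_eq] <;> ring
  obtain ⟨c, hc0, k1, k2⟩ := exists_intertwiner (x - star x)
    (g x x • (y - star y) - g x y • (x - star x)) (x' - star x')
    (g x' x' • (y' - star y') - g x' y' • (x' - star x')) (g x x)
    (g x x * (g x x * g y y - g x y ^ 2)) hD (mul_ne_zero hD hΔ) (sq1 x) (sq2 x y) (ac x y)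
    (by rw [sq1, h1]) (by rw [sq2, h1, h2, h3]) (ac x' y')
  have hN : nr c ≠ 0 := fun h => hc0 (eq_zero_of_nr ha hb h)
  let C : (ℍ[ℚ,a,b])ˣ := ⟨c, (nr c)⁻¹ • star c,
    by rw [mul_smul_comm, mul_star_eq, smul_smul, inv_mul_cancel₀ hN, one_smul],
    by rw [smul_mul_assoc, star_mul_eq, smul_smul, inv_mul_cancel₀ hN, one_smul]⟩
  have hC : (C : ℍ[ℚ,a,b]) = c := rfl
  have l1 : cj C (x - star x) = x' - star x' := by
    rw [cj, hC, k1, ← hC, mul_assoc]; simp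
  have l2 : cj C (g x x • (y - star y) - g x y • (x - star x)) =
      g x' x' • (y' - star y') - g x' y' • (x' - star x') := by
    rw [cj, hC, k2, ← hC, mul_assoc]; simp
  have l3 : cj C (y - star y) = y' - star y' := by
    rw [cj_sub, cj_smul, cj_smul, l1, h1, h3, sub_left_inj] at l2
    exact smul_right_injective _ hD l2
  have fin : ∀ u u' : ℍ[ℚ,a,b], cj C (u - star u) = u' - star u' → SameIm (cj C u) u' := by
    intro u u' h
    rw [cj_sub, ← star_cj] at h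
    have e1 := congrArg QuaternionAlgebra.imI h
    have e2 := congrArg QuaternionAlgebra.imJ h
    have e3 := congrArg QuaternionAlgebra.imK h
    simp at e1 e2 e3
    exact ⟨by linarith, by linarith, by linarith⟩
  exact ⟨C, fin _ _ l1, fin _ _ l3⟩

lemma third {u v w w' : ℍ[ℚ,a,b]} (h1 : g u w = g u w') (h2 : g v w = g v w')
    (h3 : tau u v w = tau u v w') (hΔ : g u u * g v v - g u v ^ 2 ≠ 0) : SameIm w w' := by
  have i1 : ∀ d : ℍ[ℚ,a,b], (g u u * g v v - g u v ^ 2) * d.imI =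
      4 * tau u v d * (-b * (u.imJ * v.imK - u.imK * v.imJ))
      + g u d * (g v v * u.imI - g u v * v.imI) + g v d * (g u u * v.imI - g u v * u.imI) := by
    intro d; simp only [g_eq, tau_eq]; ring
  have i2 : ∀ d : ℍ[ℚ,a,b], (g u u * g v v - g u v ^ 2) * d.imJ =
      4 * tau u v d * (-a * (u.imK * v.imI - u.imI * v.imK))
      + g u d * (g v v * u.imJ - g u v * v.imJ) + g v d * (g u u * v.imJ - g u v * u.imJ) := by
    intro d; simp only [g_eq, tau_eq]; ring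
  have i3 : ∀ d : ℍ[ℚ,a,b], (g u u * g v v - g u v ^ 2) * d.imK =
      4 * tau u v d * (u.imI * v.imJ - u.imJ * v.imI)
      + g u d * (g v v * u.imK - g u v * v.imK) + g v d * (g u u * v.imK - g u v * u.imK) := by
    intro d; simp only [g_eq, tau_eq]; ring
  refine ⟨mul_left_cancel₀ hΔ ?_, mul_left_cancel₀ hΔ ?_, mul_left_cancel₀ hΔ ?_⟩
  · rw [i1, i1, h1, h2, h3]
  · rw [i2, i2, h1, h2, h3]
  · rw [i3, i3, h1, h2, h3]

lemma SameIm.g_eq {u u' v v' : ℍ[ℚ,a,b]} (h : SameIm u u') (k : SameIm v v') :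
    g u v = g u' v' := by
  rw [Gross.g_eq, Gross.g_eq, h.1, h.2.1, h.2.2, k.1, k.2.1, k.2.2]

lemma SameIm.tau_eq {u u' v v' w w' : ℍ[ℚ,a,b]} (h : SameIm u u') (k : SameIm v v')
    (l : SameIm w w') : tau u v w = tau u' v' w' := by
  rw [Gross.tau_eq, Gross.tau_eq, h.1, h.2.1, h.2.2, k.1, k.2.1, k.2.2, l.1, l.2.1, l.2.2]

lemma SameIm.refl (u : ℍ[ℚ,a,b]) : SameIm u u := ⟨rfl, rfl, rfl⟩

lemma cj_mem_of_sameIm {O O' : Subring ℍ[ℚ,a,b]} (hO : O.toAddSubgroup.FG)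
    (hO' : O'.toAddSubgroup.FG) (c : (ℍ[ℚ,a,b])ˣ) {x x' : ℍ[ℚ,a,b]} (hx : x ∈ O) (hx' : x' ∈ O')
    (h : SameIm (cj c x) x') : cj c x ∈ O' := by
  obtain ⟨A, hA⟩ := nr_int hO hx
  obtain ⟨T, hT⟩ := tr_int hO hx
  obtain ⟨A', hA'⟩ := nr_int hO' hx'
  obtain ⟨T', hT'⟩ := tr_int hO' hx'
  have e := h.g_eq h
  rw [g_cj, g_self, g_self, hA, hT, hA', hT'] at e
  have e' : 4 * A - T ^ 2 = 4 * A' - T' ^ 2 := by exact_mod_cast e
  obtain ⟨k, hk⟩ : ∃ k, T - T' = 2 * k := by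
    rcases Int.even_or_odd' (T - T') with ⟨u, hu | hu⟩
    · exact ⟨u, hu⟩
    · exfalso
      have e1 : T = T' + 2 * u + 1 := by omega
      rw [e1] at e'
      have : 2 * (2 * A - 2 * A' - 2 * T' * u - T' - 2 * u ^ 2 - 2 * u) = 1 := by
        linear_combination e'
      omega
  have hk' : (T : ℚ) - T' = 2 * k := by exact_mod_cast hk
  have hT2 := tr_cj c x
  rw [hT, tr_eq] at hT2
  rw [tr_eq] at hT'
  have : cj c x = x' + (k : ℚ) • (1 : ℍ[ℚ,a,b]) := by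
    ext
    · simp; linarith
    · simp [h.1]
    · simp [h.2.1]
    · simp [h.2.2]
  rw [this]
  exact add_mem hx' (int_smul_mem O' k (one_mem O'))

lemma conj_of_maps {O O' : Subring ℍ[ℚ,a,b]} (hO : IsMaximalOrder O) (hO' : IsOrder O')
    (c : (ℍ[ℚ,a,b])ˣ) (h : ∀ u ∈ O, cj c u ∈ O') : Conjugate O O' := by
  let O'' : Subring ℍ[ℚ,a,b] :=
    { carrier := {u | cj c u ∈ O'}
      mul_mem' := fun {u v} hu hv => by
        simp only [Set.mem_setOf_eq] at hu hv ⊢; rw [cj_mul]; exact mul_mem hu hv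
      one_mem' := by simp only [Set.mem_setOf_eq]; rw [cj_one]; exact one_mem _
      add_mem' := fun {u v} hu hv => by
        simp only [Set.mem_setOf_eq] at hu hv ⊢; rw [cj_add]; exact add_mem hu hv
      zero_mem' := by simp [cj]
      neg_mem' := fun {u} hu => by
        simp only [Set.mem_setOf_eq] at hu ⊢
        have : cj c (-u) = - cj c u := by simp [cj]
        rw [this]; exact neg_mem hu }
  have hle : O ≤ O'' := h
  have inv1 : ∀ u, cj c (cj c⁻¹ u) = u := fun u => by simp [cj, mul_assoc]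
  have inv2 : ∀ u, cj c⁻¹ (cj c u) = u := fun u => by simp [cj, mul_assoc]
  have hO'' : IsOrder O'' := by
    constructor
    · have : O''.toAddSubgroup = O'.toAddSubgroup.map
          (AddMonoidHom.mk' (cj c⁻¹) (cj_add c⁻¹)) := by
        ext u
        constructor
        · intro hu
          exact ⟨cj c u, hu, inv2 u⟩
        · rintro ⟨v, hv, rfl⟩
          show cj c (cj c⁻¹ v) ∈ O'
          rwa [inv1]
      rw [this]
      exact fg_map hO'.1 _
    · rw [eq_top_iff, ← hO.1.2]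
      exact Submodule.span_mono hle
  have e := hO.2 O'' hO'' hle
  refine ⟨c⁻¹, ?_⟩
  ext u
  constructor
  · intro hu
    refine ⟨cj c⁻¹ u, ?_, ?_⟩
    · rw [← e]
      show cj c (cj c⁻¹ u) ∈ O'
      rwa [inv1]
    · simpa [cj] using inv1 u
  · rintro ⟨v, hv, rfl⟩
    simpa [cj] using h v hv

lemma conj_of_three {O O' : Subring ℍ[ℚ,a,b]} (hO : IsMaximalOrder O) (hO' : IsOrder O')
    {x y z : ℍ[ℚ,a,b]} (hs : Spans O x y z) (c : (ℍ[ℚ,a,b])ˣ) (hx : cj c x ∈ O')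
    (hy : cj c y ∈ O') (hz : cj c z ∈ O') : Conjugate O O' := by
  refine conj_of_maps hO hO' c fun u hu => ?_
  obtain ⟨n0, n1, n2, n3, rfl⟩ := hs.2.2.2 u hu
  rw [cj_comb]
  exact comb_mem hx hy hz _ _ _ _

lemma g_neg_right (u v : ℍ[ℚ,a,b]) : g u (-v) = -g u v := by simp [g_eq]; ring
lemma g_neg_left (u v : ℍ[ℚ,a,b]) : g (-u) v = -g u v := by simp [g_eq]; ring

/-- the case where `x, y` generate the order as a ring -/
lemma finish1 {p : ℕ} (hp : p.Prime) (hR : RamifiedExactly p a b) {O O' : Subring ℍ[ℚ,a,b]}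
    (hO : IsMaximalOrder O) (hO' : IsOrder O') {x y z x' y' : ℍ[ℚ,a,b]} (hs : Spans O x y z)
    (hn : nr (x * y - y * x) = p) (hx' : x' ∈ O') (hy' : y' ∈ O') (h1 : g x' x' = g x x)
    (h2 : g y' y' = g y y) (h3 : g x' y' = g x y ∨ g x' y' = -g x y) : Conjugate O O' := by
  obtain ⟨ha, hb⟩ := neg_of_div hR.1
  have hp0 : (p : ℚ) ≠ 0 := by exact_mod_cast hp.ne_zero
  wlog h4 : g x' y' = g x y generalizing y'
  · refine this (y' := -y') (neg_mem hy') ?_ ?_ ?_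
    · rw [g_neg_right, g_neg_left, h2, neg_neg]
    · left; rw [g_neg_right, h3.resolve_left h4, neg_neg]
    · rw [g_neg_right, h3.resolve_left h4, neg_neg]
  obtain ⟨c, k1, k2⟩ := exists_cj ha hb h1 h2 h4 (by rw [g_det2, hn]; positivity)
  have mx := cj_mem_of_sameIm hO.1.1 hO'.1 c hs.1 hx' k1
  have my := cj_mem_of_sameIm hO.1.1 hO'.1 c hs.2.1 hy' k2
  refine conj_of_three hO hO' hs c mx my ?_
  obtain ⟨k0, k1, k2, k3, e⟩ := hs.2.2.2 _ (mul_mem hs.1 hs.2.1)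
  have e1 := nr_comm_eq x y
  rw [hn, e, tau_comb3] at e1
  have e2 : (k3 : ℚ) * k3 = 1 := by
    rcases tau_sq hp hR hO hs with h | h
    · rw [h] at e1
      have : (k3 : ℚ) = 1 := mul_right_cancel₀ hp0 (by linarith)
      rw [this]; ring
    · rw [h] at e1
      have : (k3 : ℚ) = -1 := mul_right_cancel₀ hp0 (by linarith)
      rw [this]; ring
  have e3 : z = (k3 : ℚ) • (x * y - comb x y z k0 k1 k2 0) := by
    rw [e]
    simp only [comb, zero_smul, add_zero, add_sub_cancel_left, smul_smul, e2, one_smul]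
  have e4 : cj c z = (k3 : ℚ) • (cj c x * cj c y - comb (cj c x) (cj c y) 0 k0 k1 k2 (0 : ℤ)) := by
    conv_lhs => rw [e3]
    rw [cj_smul, cj_sub, cj_mul, cj_comb]
    simp [comb]
  rw [e4]
  exact int_smul_mem O' k3 (sub_mem (mul_mem mx my) (comb_mem mx my (zero_mem _) _ _ _ _))

/-- the case of equal Gram matrices -/
lemma finish2 (ha : a < 0) (hb : b < 0) {O O' : Subring ℍ[ℚ,a,b]}
    (hO : IsMaximalOrder O) (hO' : IsOrder O') {x y z x' y' z' : ℍ[ℚ,a,b]} (hs : Spans O x y z)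
    (hΔ : g x x * g y y - g x y ^ 2 ≠ 0)
    (hx' : x' ∈ O') (hy' : y' ∈ O') (hz' : z' ∈ O') (h1 : g x' x' = g x x)
    (h2 : g y' y' = g y y) (h3 : g z' z' = g z z) (h12 : g x' y' = g x y) (h13 : g x' z' = g x z)
    (h23 : g y' z' = g y z) : Conjugate O O' := by
  have ht : tau x' y' z' = tau x y z ∨ tau x' y' z' = -tau x y z := by
    have e1 := g_det3 x y z
    have e2 := g_det3 x' y' z'
    rw [h1, h2, h3, h12, h13, h23, e1] at e2
    exact sq_eq_sq_iff_eq_or_eq_neg.mp (by linarith)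
  wlog h4 : tau x' y' z' = tau x y z generalizing x' y' z'
  · have e : tau (-x') (-y') (-z') = -tau x' y' z' := by simp [tau_eq]; ring
    have e' : tau (-x') (-y') (-z') = tau x y z := by rw [e, ht.resolve_left h4, neg_neg]
    refine this (x' := -x') (y' := -y') (z' := -z') (neg_mem hx') (neg_mem hy') (neg_mem hz')
      ?_ ?_ ?_ ?_ ?_ ?_ (Or.inl e') e' <;> rw [g_neg_right, g_neg_left, neg_neg] <;> assumption
  obtain ⟨c, k1, k2⟩ := exists_cj ha hb h1 h2 h12 hΔ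
  have k3 : SameIm (cj c z) z' := by
    refine third (u := x') (v := y') ?_ ?_ ?_ (by rw [h1, h2, h12]; exact hΔ)
    · rw [h13, ← g_cj c x z]; exact (k1.g_eq (SameIm.refl _)).symm
    · rw [h23, ← g_cj c y z]; exact (k2.g_eq (SameIm.refl _)).symm
    · rw [h4, ← tau_cj c x y z]; exact (k1.tau_eq k2 (SameIm.refl _)).symm
  exact conj_of_three hO hO' hs c (cj_mem_of_sameIm hO.1.1 hO'.1 c hs.1 hx' k1)
    (cj_mem_of_sameIm hO.1.1 hO'.1 c hs.2.1 hy' k2)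
    (cj_mem_of_sameIm hO.1.1 hO'.1 c hs.2.2.1 hz' k3)

end Pool.Agent.H752Z.Gross
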