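import Pool.Agent.H752Z.Gross.F

namespace Pool.Agent.H752Z.Gross

open scoped Quaternion
open QuaternionAlgebra

variable {a b : ℚ}

lemma nr_gross (x : ℍ[ℚ,a,b]) : nr (2 * x - ((tr x : ℚ) : ℍ[ℚ,a,b])) = g x x := by
  rw [two_mul]; simp [nr_eq, g_eq, tr_eq]; ring

lemma primCount_one {O : Subring ℍ[ℚ,a,b]} (hO : O.toAddSubgroup.FG) : primCount O 1 = 0 := by
  rw [primCount, Set.encard_eq_zero, Set.eq_empty_iff_forall_notMem]
  rintro h ⟨⟨⟨x, hx, rfl⟩, -⟩, h1⟩
  rw [nr_gross] at h1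
  have := g_mod hO hx (D := 1) (by simpa using h1)
  omega

lemma exists_rep (ha : a ≠ 0) (hb : b ≠ 0) {O O' : Subring ℍ[ℚ,a,b]} (hO : IsOrder O)
    {x y z : ℍ[ℚ,a,b]} (hs : Spans O x y z) {D : ℕ} (hD : g x x = D)
    (h : primCount O D ≤ primCount O' D) : ∃ x' ∈ O', g x' x' = g x x := by
  have h1 : primCount O D ≠ 0 := by
    rw [primCount, Set.encard_ne_zero]
    refine ⟨2 * x - ((tr x : ℚ) : ℍ[ℚ,a,b]), ⟨⟨x, hs.1, rfl⟩, ?_⟩, by rw [nr_gross, hD]⟩
    rintro n _ ⟨u, hu, rfl⟩ e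
    obtain ⟨n0, n1, n2, n3, rfl⟩ := hs.2.2.2 u hu
    have t1 : ∀ w : ℍ[ℚ,a,b], tau (2 * w - ((tr w : ℚ) : ℍ[ℚ,a,b])) y z = 2 * tau w y z := by
      intro w; rw [two_mul]; simp [tau_eq]; ring
    have t2 : ∀ w : ℍ[ℚ,a,b], tau (n • w) y z = n * tau w y z := by
      intro w; simp [tau_eq]; ring
    have e1 := congrArg (fun w => tau w y z) e
    simp only [t1, t2, tau_comb1] at e1
    have ht := tau_ne_zero ha hb hO hs
    have e2 : (n : ℚ) * n1 = 1 := by
      apply mul_right_cancel₀ ht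
      linarith
    have e3 : n * n1 = 1 := by exact_mod_cast e2
    exact IsUnit.of_mul_eq_one _ e3
  have h2 : primCount O' D ≠ 0 := fun h0 => h1 (le_antisymm (h0 ▸ h) zero_le)
  rw [primCount, Set.encard_ne_zero] at h2
  obtain ⟨_, ⟨⟨x', hx', rfl⟩, -⟩, h3⟩ := h2
  exact ⟨x', hx', by rw [← nr_gross, h3, hD]⟩

lemma small_data {p : ℕ} (hp : p.Prime) (h23 : p = 2 ∨ p = 3) (hR : RamifiedExactly p a b)
    {O : Subring ℍ[ℚ,a,b]} (hO : IsMaximalOrder O) : ∃ x y z, Spans O x y z ∧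
      nr (x * y - y * x) = p ∧ g x x = 3 ∧ g y y = p + 1 ∧ g x y ^ 2 = 3 - p := by
  obtain ⟨x, y, z, hs, D1, D2, D3, t12, t13, t23, m, hD1, hD2, hD3, ht12, ht13, ht23, b1, b12,
    b23, ⟨c1, c2⟩, ⟨c3, c4⟩, ⟨c5, c6⟩, hm, hm1, hD3m, hn, hdet⟩ := reduced_data hp hR hO
  have m1 := g_mod hO.1.1 hs.1 hD1
  have m2 := g_mod hO.1.1 hs.2.1 hD2
  have m3 := g_mod hO.1.1 hs.2.2.1 hD3
  obtain ⟨k13, -, e13, -⟩ := g_det2_dvd hp hR hO.1.1 hs.1 hs.2.2.1 hD1 hD3 ht13
  obtain ⟨k23, -, e23, -⟩ := g_det2_dvd hp hR hO.1.1 hs.2.1 hs.2.2.1 hD2 hD3 ht23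
  have key : m = 1 ∧ D1 = 3 ∧ D2 = p + 1 ∧ t12 ^ 2 = 3 - p := by
    have hD3' : D3 ≤ 2 * p := by nlinarith
    have hm2 : 3 * m ≤ 2 * p := by nlinarith
    rcases h23 with rfl | rfl
    · push_cast at *
      have q1 : D1 ≤ 4 := by omega
      have q2 : D2 ≤ 4 := by omega
      have q3 : m = 1 := by omega
      have q4 : -2 ≤ t12 := by omega
      have q5 : t12 ≤ 2 := by omega
      subst q3
      interval_cases D1 <;> interval_cases D2 <;> interval_cases t12 <;> omega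
    · push_cast at *
      have q0 : D3 ≤ 4 := by omega
      have q1 : D1 ≤ 4 := by omega
      have q2 : D2 ≤ 4 := by omega
      have q3 : m ≤ 2 := by omega
      have q4 : -2 ≤ t12 := by omega
      have q5 : t12 ≤ 2 := by omega
      have q6 : -2 ≤ t13 := by omega
      have q7 : t13 ≤ 2 := by omega
      have q8 : -2 ≤ t23 := by omega
      have q9 : t23 ≤ 2 := by omega
      interval_cases D1 <;> interval_cases D2 <;> interval_cases D3 <;> interval_cases t12 <;>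
        first
        | omega
        | (interval_cases t13 <;> interval_cases t23 <;> omega)
  obtain ⟨k1, k2, k3, k4⟩ := key
  refine ⟨x, y, z, hs, by rw [hn, k1]; simp, by rw [hD1, k2]; simp, by rw [hD2, k3]; simp, ?_⟩
  rw [ht12]; exact_mod_cast k4

lemma conj_of_le {p : ℕ} (hp : p.Prime) (hR : RamifiedExactly p a b) {O O' : Subring ℍ[ℚ,a,b]}
    (hO : IsMaximalOrder O) (hO' : IsMaximalOrder O')
    (h : ∀ n : ℕ, 0 < n → n < 2 * p → primCount O n ≤ primCount O' n) : Conjugate O O' := by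
  obtain ⟨ha, hb⟩ := neg_of_div hR.1
  by_cases h23 : p = 2 ∨ p = 3
  · obtain ⟨x, y, z, hs, hn, h1, h2, h3⟩ := small_data hp h23 hR hO
    obtain ⟨x', y', z', hs', -, h1', h2', h3'⟩ := small_data hp h23 hR hO'
    exact finish1 hp hR hO hO'.1 hs hn hs'.1 hs'.2.1 (by rw [h1, h1']) (by rw [h2, h2'])
      (sq_eq_sq_iff_eq_or_eq_neg.mp (by rw [h3, h3']))
  have hp5 : 5 ≤ p := by
    have := hp.two_le
    have h4 : p ≠ 4 := by rintro rfl; norm_num at hp
    omega
  have hp5' : (5 : ℤ) ≤ p := by exact_mod_cast hp5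
  have hp' : Prime (p : ℤ) := Nat.prime_iff_prime_int.mp hp
  have rep : ∀ x y z, Spans O x y z → ∀ D : ℤ, g x x = D → 0 < D → D < 2 * p →
      ∃ x' ∈ O', g x' x' = g x x := by
    intro x y z hs D hD h0 h1
    obtain ⟨n, rfl⟩ := Int.eq_ofNat_of_zero_le h0.le
    exact exists_rep ha.ne hb.ne hO.1 hs (by simpa using hD)
      (h n (by exact_mod_cast h0) (by exact_mod_cast h1))
  obtain ⟨x, y, z, hs, D1, D2, D3, t12, t13, t23, m, hD1, hD2, hD3, ht12, ht13, ht23, b1, b12,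
    b23, ⟨c1, c2⟩, ⟨c3, c4⟩, ⟨c5, c6⟩, hm, hm1, hD3m, hn, hdet⟩ := reduced_data hp hR hO
  -- inner products of vectors of `O'` with the right norms
  have pm : ∀ (u v u' v' : ℍ[ℚ,a,b]) (Du Dv t : ℤ), u ∈ O → v ∈ O → u' ∈ O' → v' ∈ O' →
      g u u = Du → g v v = Dv → g u v = t → g u' u' = g u u → g v' v' = g v v →
      (∀ t' : ℤ, t' ^ 2 ≤ Du * Dv → |t| + |t'| < 2 * p) → g u' v' = t ∨ g u' v' = -t := by
    intro u v u' v' Du Dv t hu hv hu' hv' e1 e2 e3 e4 e5 hbd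
    obtain ⟨t', ht'⟩ := g_int hO'.1.1 hu' hv'
    obtain ⟨k, -, ek, -⟩ := g_det2_dvd hp hR hO.1.1 hu hv e1 e2 e3
    obtain ⟨k', k0, ek', -⟩ := g_det2_dvd hp hR hO'.1.1 hu' hv' (e4.trans e1) (e5.trans e2) ht'
    have := pm_of_dvd hp t t' ⟨k - k', by linear_combination ek - ek'⟩ (hbd t' (by
      have : 0 ≤ 4 * (p : ℤ) * k' := by positivity
      linarith))
    rcases this with e | e
    · left; rw [ht', e]
    · right; rw [ht', e]; simp
  by_cases hm' : m = 1
  · subst hm'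
    have q1 : 4 * t12 ^ 2 ≤ D1 * D2 := by nlinarith
    have q2 : 3 * (D1 * D2) ≤ 16 * p := by nlinarith
    have q3 : D2 < 2 * p := by nlinarith
    obtain ⟨x', hx', e1⟩ := rep x y z hs D1 hD1 (by omega) (by omega)
    obtain ⟨y', hy', e2⟩ := rep y z x hs.rot D2 hD2 (by omega) q3
    refine finish1 hp hR hO hO'.1 hs (by simpa using hn) hx' hy' e1 e2 ?_
    rw [ht12]
    refine pm x y x' y' D1 D2 t12 hs.1 hs.2.1 hx' hy' hD1 hD2 ht12 e1 e2 fun t' ht' => ?_
    have r1 : 3 * |t12| < 2 * p := by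
      by_contra hc
      have := sq_abs t12
      nlinarith [abs_nonneg t12]
    have r2 : 3 * |t'| < 4 * p := by
      by_contra hc
      have := sq_abs t'
      nlinarith [abs_nonneg t']
    omega
  · have q1 : D3 ≤ p := by
      have : 2 ≤ m := by omega
      nlinarith
    obtain ⟨x', hx', e1⟩ := rep x y z hs D1 hD1 (by omega) (by omega)
    obtain ⟨y', hy', e2⟩ := rep y z x hs.rot D2 hD2 (by omega) (by omega)
    obtain ⟨z', hz', e3⟩ := rep z x y hs.rot.rot D3 hD3 (by omega) (by omega)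
    have bd : ∀ Du Dv t : ℤ, 0 ≤ Du → Du ≤ p → 0 ≤ Dv → Dv ≤ p → -Du ≤ 2 * t → 2 * t ≤ Du →
        ∀ t' : ℤ, t' ^ 2 ≤ Du * Dv → |t| + |t'| < 2 * p := by
      intro Du Dv t u0 u1 v0 v1 l1 l2 t' ht'
      have r1 : 2 * |t| ≤ p := by
        rcases abs_cases t with ⟨e, -⟩ | ⟨e, -⟩ <;> omega
      have r2 : |t'| ≤ p := by
        by_contra hc
        have := sq_abs t'
        nlinarith [abs_nonneg t']
      omega
    have hΔ : g x x * g y y - g x y ^ 2 ≠ 0 := by
      rw [g_det2, hn]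
      have : (0 : ℚ) < m := by exact_mod_cast (show (0 : ℤ) < m by omega)
      have : (0 : ℚ) < p := by exact_mod_cast hp.pos
      positivity
    have s12 := pm x y x' y' D1 D2 t12 hs.1 hs.2.1 hx' hy' hD1 hD2 ht12 e1 e2
      (bd _ _ _ (by omega) (by omega) (by omega) (by omega) c1 c2)
    have s13 := pm x z x' z' D1 D3 t13 hs.1 hs.2.2.1 hx' hz' hD1 hD3 ht13 e1 e3
      (bd _ _ _ (by omega) (by omega) (by omega) (by omega) c3 c4)
    have s23 := pm y z y' z' D2 D3 t23 hs.2.1 hs.2.2.1 hy' hz' hD2 hD3 ht23 e2 e3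
      (bd _ _ _ (by omega) (by omega) (by omega) (by omega) c5 c6)
    have ng : ∀ u : ℍ[ℚ,a,b], g (-u) (-u) = g u u := fun u => by
      rw [g_neg_right, g_neg_left, neg_neg]
    wlog w12 : g x' y' = t12 generalizing y'
    · have e : g x' (-y') = t12 := by rw [g_neg_right, s12.resolve_left w12, neg_neg]
      refine this (-y') (neg_mem hy') (by rw [ng, e2]) (Or.inl e) ?_ e
      rw [g_neg_left]
      rcases s23 with k | k
      · right; rw [k]
      · left; rw [k, neg_neg]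
    wlog w13 : g x' z' = t13 generalizing z'
    · have e : g x' (-z') = t13 := by rw [g_neg_right, s13.resolve_left w13, neg_neg]
      refine this (-z') (neg_mem hz') (by rw [ng, e3]) (Or.inl e) ?_ e
      rw [g_neg_right]
      rcases s23 with k | k
      · right; rw [k]
      · left; rw [k, neg_neg]
    rcases s23 with w23 | w23
    · exact finish2 ha hb hO hO'.1 hs hΔ hx' hy' hz' e1 e2 e3 (by rw [w12, ht12])
        (by rw [w13, ht13]) (by rw [w23, ht23])
    · obtain ⟨k, hk⟩ := tau_dvd' hp hR hO'.1.1 hx' hy' hz'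
      have d := g_det3 x' y' z'
      rw [e1, e2, e3, hD1, hD2, hD3, w12, w13, w23, hk] at d
      have d' : D1 * D2 * D3 + 2 * t12 * t13 * (-t23) - D1 * (-t23) ^ 2 - D2 * t13 ^ 2
          - D3 * t12 ^ 2 = 4 * (p * k) ^ 2 := by exact_mod_cast d
      have dv : (p : ℤ) ∣ t12 * t13 * t23 := ⟨p * (1 - k ^ 2), by linarith⟩
      rcases hp'.dvd_or_dvd dv with dv | dv
      · rcases hp'.dvd_or_dvd dv with dv | dv
        · have z0 : t12 = 0 :=
            Int.eq_zero_of_abs_lt_dvd dv (by rw [abs_lt]; constructor <;> omega)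
          refine finish2 ha hb hO hO'.1 hs hΔ hx' (neg_mem hy') hz' e1 (by rw [ng, e2]) e3 ?_
            (by rw [w13, ht13]) ?_
          · rw [g_neg_right, w12, ht12, z0]; simp
          · rw [g_neg_left, w23, ht23, neg_neg]
        · have z0 : t13 = 0 :=
            Int.eq_zero_of_abs_lt_dvd dv (by rw [abs_lt]; constructor <;> omega)
          refine finish2 ha hb hO hO'.1 hs hΔ hx' hy' (neg_mem hz') e1 e2 (by rw [ng, e3])
            (by rw [w12, ht12]) ?_ ?_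
          · rw [g_neg_right, w13, ht13, z0]; simp
          · rw [g_neg_right, w23, ht23, neg_neg]
      · have z0 : t23 = 0 :=
          Int.eq_zero_of_abs_lt_dvd dv (by rw [abs_lt]; constructor <;> omega)
        exact finish2 ha hb hO hO'.1 hs hΔ hx' hy' hz' e1 e2 e3 (by rw [w12, ht12])
          (by rw [w13, ht13]) (by rw [w23, ht23, z0]; simp)

theorem main {p : ℕ} (hp : p.Prime) (hR : RamifiedExactly p a b) {O O' : Subring ℍ[ℚ,a,b]}
    (hO : IsMaximalOrder O) (hO' : IsMaximalOrder O') (hne : ¬ Conjugate O O') :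
    ∃ n₀ : ℕ, IsLeast (signChangeBounds O O') n₀ ∧ n₀ ≤ 2 * p := by
  have h1 : 2 * p ∈ signChangeBounds O O' := by
    by_contra hn
    refine hne (conj_of_le hp hR hO hO' fun n h0 h2 => ?_)
    by_contra hlt
    have := hp.two_le
    exact hn ⟨1, n, one_pos, by omega, h0, h2, by rw [primCount_one hO.1.1]; exact zero_le,
      not_le.mp hlt⟩
  exact ⟨sInf (signChangeBounds O O'), ⟨Nat.sInf_mem ⟨_, h1⟩, fun m hm => Nat.sInf_le hm⟩,
    Nat.sInf_le h1⟩

end Pool.Agent.H752Z.Gross
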